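import Pool.Agent.U663.DS.Rank
import Pool.Agent.N348.QP_FINT
import Pool.Agent.N906.KG.AllG

/-!
# Common factors (helper663): Rankin's method with a deficient face, for tuples of natural numbers
-/

set_option autoImplicit false

namespace Pool.Agent.U663.CF

open NumberField IsDedekindDomain Finset Filter Topology Pool.Agent.H691R3 Pool.Agent.W223.AK
open Pool.Agent.N906
open Pool.Agent.H813R3.Abc (pr_prime pr_inj)
open Pool.Agent.N348.QP (Nv_eq exists_pr)

variable {n : ℕ}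

/-- the set of the coordinates divisible by `p` -/
def fp (D : Fin n → ℕ) (p : ℕ) : Finset (Fin n) := univ.filter fun i => p ∣ D i

/-- the logarithm of the gain from the primes which divide exactly the coordinates in `s` -/
noncomputable def gs (D : Fin n → ℕ) (s : Finset (Fin n)) : ℝ :=
  ∑ p ∈ (NT.pr D).primeFactors.filter (fun p => fp D p = s),
    (((NT.pr D).factorization p : ℝ) - 1) * Real.log p

/-- the prime of a place of `ℚ` -/
noncomputable def pv (v : Pr ℚ) : ℕ := Pool.Agent.H813R3.Abc.pr v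

theorem pv_prime (v : Pr ℚ) : (pv v).Prime := pr_prime v

theorem pv_inj : Function.Injective pv := fun _ _ h => pr_inj h

theorem pv_Nv (v : Pr ℚ) : Nv v = (pv v : ℝ) := Nv_eq v

/-- the ideal of a natural number -/
noncomputable def io (m : ℕ) : Idl ℚ := m.factorization.comapDomain pv pv_inj.injOn

theorem io_apply (m : ℕ) (v : Pr ℚ) : io m v = m.factorization (pv v) := rfl

theorem io_supp (m : ℕ) : (io m).support.image pv = m.primeFactors := by
  classical
  ext p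
  rw [Finset.mem_image, ← Nat.support_factorization, Finsupp.mem_support_iff]
  constructor
  · rintro ⟨v, hv, rfl⟩
    have h1 : io m v ≠ 0 := Finsupp.mem_support_iff.1 hv
    exact h1
  · intro h
    have hp : p.Prime := by
      by_contra h1
      exact h (Nat.factorization_eq_zero_of_not_prime m h1)
    obtain ⟨v, rfl⟩ := exists_pr hp
    exact ⟨v, Finsupp.mem_support_iff.2 h, rfl⟩

theorem io_inj {a b : ℕ} (ha : a ≠ 0) (hb : b ≠ 0) (h : io a = io b) : a = b := by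
  apply Nat.eq_of_factorization_eq ha hb
  intro p
  by_cases hp : p.Prime
  · obtain ⟨v, rfl⟩ := exists_pr hp
    exact congrArg (fun f => f v) h
  · rw [Nat.factorization_eq_zero_of_not_prime a hp, Nat.factorization_eq_zero_of_not_prime b hp]

/-- the tuple of ideals -/
noncomputable def it (D : Fin n → ℕ) : Fin n → Idl ℚ := fun i => io (D i)

theorem fact_pr {D : Fin n → ℕ} (hD : ∀ i, D i ≠ 0) (p : ℕ) :
    (NT.pr D).factorization p = ∑ i, (D i).factorization p := by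
  unfold NT.pr
  rw [Nat.factorization_prod fun i _ => hD i, Finsupp.finsetSum_apply]

theorem it_sp {D : Fin n → ℕ} (hD : ∀ i, D i ≠ 0) :
    (KG.sp (it D)).image pv = (NT.pr D).primeFactors := by
  classical
  have h0 : NT.pr D ≠ 0 := Finset.prod_ne_zero_iff.2 fun i _ => hD i
  ext p
  rw [Finset.mem_image, Nat.mem_primeFactors_of_ne_zero h0]
  constructor
  · rintro ⟨v, hv, rfl⟩
    obtain ⟨i, hi⟩ := Pool.Agent.N645.KG.mem_sp.1 hv
    refine ⟨pv_prime v, ?_⟩
    have h1 : pv v ∣ D i := Nat.dvd_of_factorization_pos hi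
    exact h1.trans (Finset.dvd_prod_of_mem D (mem_univ i))
  · rintro ⟨hp, hd⟩
    obtain ⟨v, rfl⟩ := exists_pr hp
    refine ⟨v, ?_, rfl⟩
    obtain ⟨i, -, hi⟩ := (hp.prime.dvd_finsetProd_iff _).1 hd
    exact Pool.Agent.N645.KG.mem_sp.2 ⟨i, (hp.factorization_pos_of_dvd (hD i) hi).ne'⟩

theorem it_tr {D : Fin n → ℕ} (hD : ∀ i, D i ≠ 0) :
    KG.tr (it D) = Real.log (NT.rr D) := by
  classical
  unfold KG.tr NT.rr
  rw [← it_sp hD, Finset.prod_image fun v _ w _ h => pv_inj h, Nat.cast_prod, Real.log_prod]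
  · exact Finset.sum_congr rfl fun v _ => by rw [pv_Nv]
  · intro v _
    exact_mod_cast (pv_prime v).ne_zero

theorem it_len {m : ℕ} (hm : m ≠ 0) : len (io m) = Real.log m := by
  classical
  have h1 : ((∏ p ∈ m.primeFactors, p ^ m.factorization p : ℕ) : ℝ) = m := by
    have := Nat.prod_factorization_pow_eq_self hm
    exact_mod_cast this
  rw [← h1, Nat.cast_prod, Real.log_prod, ← io_supp m, Finset.sum_image fun v _ w _ h => pv_inj h]
  · unfold len
    refine Finset.sum_congr rfl fun v _ => ?_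
    rw [io_apply, pv_Nv, Nat.cast_pow, Real.log_pow]
  · intro p hp
    have := (Nat.prime_of_mem_primeFactors hp).pos
    exact_mod_cast (pow_pos this _).ne'

theorem it_tl {D : Fin n → ℕ} (hD : ∀ i, D i ≠ 0) :
    KG.tl (it D) = Real.log (NT.pr D) := by
  unfold KG.tl NT.pr
  rw [Nat.cast_prod, Real.log_prod fun i _ => by exact_mod_cast hD i]
  exact Finset.sum_congr rfl fun i _ => it_len (hD i)

theorem it_gl {D : Fin n → ℕ} (hD : ∀ i, D i ≠ 0) :
    KG.gl (it D) = Real.log (NT.gn D) := by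
  have h0 : (NT.pr D : ℝ) ≠ 0 := by
    exact_mod_cast Finset.prod_ne_zero_iff.2 fun i _ => hD i
  have h1 : (NT.rr D : ℝ) ≠ 0 := by exact_mod_cast (Pool.Agent.N755.NT.rr_pos D).ne'
  unfold KG.gl NT.gn
  rw [it_tl hD, it_tr hD, Real.log_div h0 h1]

theorem it_fc {D : Fin n → ℕ} (hD : ∀ i, D i ≠ 0) (v : Pr ℚ) :
    DS.fc (it D) v = fp D (pv v) := by
  ext i
  rw [DS.mem_fc]
  unfold fp
  rw [mem_filter]
  constructor
  · intro h
    exact ⟨mem_univ _, Nat.dvd_of_factorization_pos h⟩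
  · rintro ⟨-, h⟩
    exact ((pv_prime v).factorization_pos_of_dvd (hD i) h).ne'

theorem it_tp {Δ : Finset (Finset (Fin n))} {D : Fin n → ℕ} (h : NT.Tp Δ D) :
    KG.Tp Δ (it D) := by
  intro v
  have h1 := it_fc (fun i => Nat.one_le_iff_ne_zero.1 (h.1 i)) v
  unfold DS.fc at h1
  rw [h1]
  exact h.2 _ (pv_prime v)

theorem it_sq {D : Fin n → ℕ} (hD : ∀ i, D i ≠ 0) (h : NT.Sq D) : KG.Sq (it D) := by
  intro v h1
  have h0 : NT.pr D ≠ 0 := Finset.prod_ne_zero_iff.2 fun i _ => hD i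
  have h2 : (NT.pr D).factorization (pv v) = 1 := by
    rw [fact_pr hD]
    exact h1
  have h3 : pv v ∣ NT.pr D := Nat.dvd_of_factorization_pos (by rw [h2]; norm_num)
  have h4 := ((pv_prime v).pow_dvd_iff_le_factorization h0).1 (h _ (pv_prime v) h3)
  omega

/-- the gain at a face -/
theorem it_gs {D : Fin n → ℕ} (hD : ∀ i, D i ≠ 0) {s : Finset (Fin n)} (hs : s ≠ ∅) :
    KG.gl (DS.prt (it D) s) = gs D s := by
  classical
  rw [DS.prt_gl _ hs]
  unfold gs
  rw [← it_sp hD]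
  have h1 : ((KG.sp (it D)).image pv).filter (fun p => fp D p = s) =
      ((KG.sp (it D)).filter fun v => DS.fc (it D) v = s).image pv := by
    ext p
    rw [mem_filter, Finset.mem_image, Finset.mem_image]
    constructor
    · rintro ⟨⟨v, hv, rfl⟩, h⟩
      exact ⟨v, mem_filter.2 ⟨hv, by rw [it_fc hD]; exact h⟩, rfl⟩
    · rintro ⟨v, hv, rfl⟩
      rw [mem_filter] at hv
      exact ⟨⟨v, hv.1, rfl⟩, by rw [← it_fc hD]; exact hv.2⟩
  rw [h1, Finset.sum_image fun v _ w _ h => pv_inj h]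
  refine Finset.sum_congr rfl fun v _ => ?_
  rw [fact_pr hD, pv_Nv]
  rfl

theorem gs_nonneg {D : Fin n → ℕ} (hD : ∀ i, D i ≠ 0) (s : Finset (Fin n)) : 0 ≤ gs D s := by
  unfold gs
  refine Finset.sum_nonneg fun p hp => ?_
  rw [mem_filter] at hp
  have hp1 := Nat.prime_of_mem_primeFactors hp.1
  have h0 : NT.pr D ≠ 0 := Finset.prod_ne_zero_iff.2 fun i _ => hD i
  have h1 : 1 ≤ (NT.pr D).factorization p :=
    hp1.factorization_pos_of_dvd h0 (Nat.dvd_of_mem_primeFactors hp.1)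
  have h2 : (1 : ℝ) ≤ (NT.pr D).factorization p := by exact_mod_cast h1
  exact mul_nonneg (by linarith) (Real.log_nonneg (by exact_mod_cast hp1.one_le))

theorem gs_empty {D : Fin n → ℕ} (hD : ∀ i, D i ≠ 0) : gs D ∅ = 0 := by
  unfold gs
  rw [Finset.sum_eq_zero]
  intro p hp
  exfalso
  rw [mem_filter] at hp
  have hp1 := Nat.prime_of_mem_primeFactors hp.1
  obtain ⟨i, -, hi⟩ := (hp1.prime.dvd_finsetProd_iff _).1 (Nat.dvd_of_mem_primeFactors hp.1)
  have : i ∈ fp D p := mem_filter.2 ⟨mem_univ i, hi⟩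
  rw [hp.2] at this
  exact Finset.notMem_empty i this

/-- the gain is the sum over the faces -/
theorem sum_gs {D : Fin n → ℕ} (hD : ∀ i, D i ≠ 0) : ∑ s, gs D s = Real.log (NT.gn D) := by
  rw [← it_gl hD, ← DS.sum_gl]
  refine Finset.sum_congr rfl fun s _ => ?_
  by_cases hs : s = ∅
  · rw [hs, gs_empty hD, DS.prt_empty, DS.gl_zero]
  · exact (it_gs hD hs).symm

theorem gs_not {Δ : Finset (Finset (Fin n))} {D : Fin n → ℕ} (hD : NT.Tp Δ D)
    {s : Finset (Fin n)} (hs : s ∉ Δ) : gs D s = 0 := by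
  unfold gs
  rw [Finset.sum_eq_zero]
  intro p hp
  exfalso
  rw [mem_filter] at hp
  apply hs
  rw [← hp.2]
  exact hD.2 p (Nat.prime_of_mem_primeFactors hp.1)

/-- the gain at a maximal face is inherited by the divisors -/
theorem gs_mono {Δ : Finset (Finset (Fin n))} {r t : ℕ} (hΔ : NT.Cx Δ r t)
    {D E : Fin n → ℕ} (hDE : ∀ i, D i ∣ E i) (hE : NT.Tp Δ E) {s : Finset (Fin n)}
    (hs : s.card = r) : gs D s ≤ gs E s := by
  have hE0 : ∀ i, E i ≠ 0 := fun i => Nat.one_le_iff_ne_zero.1 (hE.1 i)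
  have hD0 : ∀ i, D i ≠ 0 := fun i => ne_zero_of_dvd_ne_zero (hE0 i) (hDE i)
  have hs0 : s ≠ ∅ := by
    rintro rfl
    have := hΔ.1
    rw [Finset.card_empty] at hs
    omega
  rw [← it_gs hD0 hs0, ← it_gs hE0 hs0]
  refine DS.prt_mono hΔ (fun i v => ?_) (it_tp hE) hs
  exact (Nat.factorization_le_iff_dvd (hD0 i) (hE0 i)).2 (hDE i) _

/-- Rankin's method for the tuples with a small gain at one maximal face -/
theorem rankN {Δ : Finset (Finset (Fin n))} {r t : ℕ} (hΔ : NT.Cx Δ r t)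
    {s₀ : Finset (Fin n)} (hs₀ : s₀ ∈ Δ) (hs₀r : s₀.card = r) {ε : ℝ} (hε : 0 < ε) :
    ∃ η : ℝ, 0 < η ∧ η ≤ 1 ∧ ∃ Z₀ : ℝ, 1 < Z₀ ∧ ∀ (Z T : ℝ) (F : Finset (Fin n → ℕ)), Z₀ ≤ Z →
      1 ≤ T → Real.log T ≤ Z →
      (∀ D ∈ F, NT.Tp Δ D ∧ NT.Sq D ∧ T ≤ NT.gn D ∧ gs D s₀ ≤ (1 / t - ε) * Z) →
      T * ∑ D ∈ F, 1 / (NT.pr D : ℝ) ≤
        Real.exp ((1 - η) * (NT.cst r t * (Z / Real.log Z) ^ ((r : ℝ) / (r + 1)))) := by
  classical
  obtain ⟨η, h1, h2, Z₀, h3, h4⟩ := DS.rankF (K := ℚ) (KG.gupk_all ℚ) hΔ hs₀ hs₀r hε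
  have hs0 : s₀ ≠ ∅ := by
    rintro rfl
    have := hΔ.1
    rw [Finset.card_empty] at hs₀r
    omega
  refine ⟨η, h1, h2, Z₀, h3, fun Z T F hZ hT1 hT hF => ?_⟩
  have hT0 : 0 < T := by linarith
  have hne : ∀ D ∈ F, ∀ i, D i ≠ 0 := fun D hD i => Nat.one_le_iff_ne_zero.1 ((hF D hD).1.1 i)
  have h5 := h4 Z (Real.log T) (F.image it) hZ hT (by
    intro E hE
    obtain ⟨D, hD, rfl⟩ := mem_image.1 hE
    obtain ⟨g1, g2, g3, g4⟩ := hF D hD
    refine ⟨it_tp g1, it_sq (hne D hD) g2, ?_, ?_⟩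
    · rw [it_gl (hne D hD)]
      exact Real.log_le_log hT0 g3
    · rw [it_gs (hne D hD) hs0]
      exact g4)
  rw [Finset.sum_image] at h5
  · have h6 : ∀ D ∈ F, Real.exp (-KG.tl (it D)) = 1 / (NT.pr D : ℝ) := by
      intro D hD
      have h0 : (0 : ℝ) < NT.pr D := by
        exact_mod_cast Nat.pos_of_ne_zero (Finset.prod_ne_zero_iff.2 fun i _ => hne D hD i)
      rw [it_tl (hne D hD), Real.exp_neg, Real.exp_log h0, one_div]
    rw [Finset.sum_congr rfl h6] at h5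
    calc T * ∑ D ∈ F, 1 / (NT.pr D : ℝ) ≤ T * _ := mul_le_mul_of_nonneg_left h5 hT0.le
      _ = _ := by
        rw [Real.exp_add, Real.exp_neg, Real.exp_log hT0, ← mul_assoc, mul_inv_cancel₀ hT0.ne',
          one_mul]
  · intro D hD E hE h
    funext i
    exact io_inj (hne D hD i) (hne E hE i) (congrFun h i)

end Pool.Agent.U663.CF
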