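import Pool.Agent.U663.CF.Up
import Pool.Agent.N906.NT.Lim

/-!
# Common factors (helper663): the typical exceptions to the `n`-term abc inequality
-/

set_option autoImplicit false

namespace Pool.Agent.U663.CF

open Finset Filter Topology Pool.Agent.N906.NT
open Pool.Agent.N755.NT (cx_Dl cst_pos)

/-! ### Orders of magnitude -/

theorem scale_cmp {κ ρ δ : ℝ} (hκ : 0 < κ) (hρ : 0 < ρ) (hρ1 : ρ ≤ 1) (hδ : 0 < δ) :
    ∀ᶠ L : ℝ in atTop, (κ * L / Real.log (κ * L)) ^ ρ ≤ (1 + δ) * (κ ^ ρ * Gs ρ L) := by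
  filter_upwards [Real.tendsto_log_atTop.eventually_ge_atTop (-Real.log κ * ((1 + δ) / δ)),
    eventually_gt_atTop (1 : ℝ)] with L h1 h2
  have hL0 : 0 < L := by linarith
  have hl : 0 < Real.log L := Real.log_pos h2
  have h3 : Real.log (κ * L) = Real.log κ + Real.log L := Real.log_mul hκ.ne' hL0.ne'
  have h4 : Real.log L ≤ (1 + δ) * Real.log (κ * L) := by
    rw [h3]
    have h5 : -Real.log κ * (1 + δ) ≤ δ * Real.log L := by
      have h6 : -Real.log κ * ((1 + δ) / δ) * δ ≤ Real.log L * δ :=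
        mul_le_mul_of_nonneg_right h1 hδ.le
      have h7 : -Real.log κ * ((1 + δ) / δ) * δ = -Real.log κ * (1 + δ) := by field_simp
      linarith
    nlinarith
  have h5 : 0 < Real.log (κ * L) := by
    by_contra h
    push Not at h
    have : (1 + δ) * Real.log (κ * L) ≤ 0 := mul_nonpos_of_nonneg_of_nonpos (by linarith) h
    linarith
  have h6 : κ * L / Real.log (κ * L) ≤ (1 + δ) * (κ * (L / Real.log L)) := by
    rw [div_le_iff₀ h5]
    have h7 : (1 + δ) * (κ * (L / Real.log L)) * Real.log (κ * L) =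
        κ * L * ((1 + δ) * Real.log (κ * L)) / Real.log L := by ring
    rw [h7, le_div_iff₀ hl]
    exact mul_le_mul_of_nonneg_left h4 (by positivity)
  have h7 : (1 + δ) ^ ρ ≤ 1 + δ := by
    calc (1 + δ) ^ ρ ≤ (1 + δ) ^ (1 : ℝ) := Real.rpow_le_rpow_of_exponent_le (by linarith) hρ1
      _ = 1 + δ := Real.rpow_one _
  unfold Gs
  have h8 : 0 ≤ L / Real.log L := by positivity
  calc (κ * L / Real.log (κ * L)) ^ ρ ≤ ((1 + δ) * (κ * (L / Real.log L))) ^ ρ :=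
        Real.rpow_le_rpow (by positivity) h6 hρ.le
    _ = (1 + δ) ^ ρ * (κ ^ ρ * (L / Real.log L) ^ ρ) := by
        rw [Real.mul_rpow (by positivity) (by positivity), Real.mul_rpow hκ.le h8]
    _ ≤ _ := mul_le_mul_of_nonneg_right h7 (by positivity)

theorem absorb {ρ δ : ℝ} (hρ : 0 < ρ) (A m : ℝ) (hδ : 0 < δ) :
    ∀ᶠ L : ℝ in atTop, A + m * Real.log L ≤ δ * Gs ρ L := by
  have h1 : ∀ᶠ L : ℝ in atTop, Real.log L / Gs ρ L < δ / (2 * (|m| + 1)) :=
    (log_small hρ).eventually (gt_mem_nhds (by positivity))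
  filter_upwards [h1, (Gs_tendsto hρ).eventually_ge_atTop (2 * A / δ),
    eventually_gt_atTop (1 : ℝ)] with L g1 g2 g3
  have hG := Gs_pos (ρ := ρ) g3
  have hl : 0 < Real.log L := Real.log_pos g3
  rw [div_lt_iff₀ hG, div_mul_eq_mul_div, lt_div_iff₀ (by positivity)] at g1
  rw [div_le_iff₀ hδ] at g2
  have h2 : m * Real.log L ≤ |m| * Real.log L := mul_le_mul_of_nonneg_right (le_abs_self m) hl.le
  nlinarith

theorem Gs_lin {ρ δ : ℝ} (hρ : 0 < ρ) (hρ1 : ρ < 1) (C : ℝ) (hδ : 0 < δ) :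
    ∀ᶠ L : ℝ in atTop, C * Gs ρ L ≤ δ * L := by
  have h1 : Tendsto (fun X : ℝ => X ^ (1 - ρ)) atTop atTop := tendsto_rpow_atTop (by linarith)
  filter_upwards [h1.eventually_ge_atTop (|C| / δ), eventually_gt_atTop (1 : ℝ),
    Real.tendsto_log_atTop.eventually_ge_atTop 1] with X h1 h2 h3
  have hX0 : 0 < X := by linarith
  unfold Gs
  have h4 : (X / Real.log X) ^ ρ ≤ X ^ ρ := by
    apply Real.rpow_le_rpow (by positivity) _ hρ.le
    exact div_le_self (by positivity) h3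
  rw [div_le_iff₀ hδ] at h1
  have h5 : X ^ (1 - ρ) * X ^ ρ = X := by
    rw [← Real.rpow_add hX0]
    simp
  have h6 : 0 < X ^ ρ := Real.rpow_pos_of_pos hX0 _
  have h7 : 0 ≤ (X / Real.log X) ^ ρ := by positivity
  calc C * (X / Real.log X) ^ ρ ≤ |C| * (X / Real.log X) ^ ρ :=
        mul_le_mul_of_nonneg_right (le_abs_self C) h7
    _ ≤ |C| * X ^ ρ := mul_le_mul_of_nonneg_left h4 (abs_nonneg C)
    _ ≤ (X ^ (1 - ρ) * δ) * X ^ ρ := mul_le_mul_of_nonneg_right h1 h6.le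
    _ = δ * (X ^ (1 - ρ) * X ^ ρ) := by ring
    _ = δ * X := by rw [h5]

/-- `B` is smaller than the main term by a factor `exp (- η Gs)` -/
def Sm (e c ρ : ℝ) (B : ℝ → ℝ) : Prop :=
  ∃ η : ℝ, 0 < η ∧ ∀ᶠ L : ℝ in atTop, B L ≤ Real.exp (e * L + (c - η) * Gs ρ L)

theorem Sm.mono {e c ρ : ℝ} {A B : ℝ → ℝ} (hB : Sm e c ρ B) (h : ∀ᶠ L : ℝ in atTop, A L ≤ B L) :
    Sm e c ρ A := by
  obtain ⟨η, hη, hb⟩ := hB
  refine ⟨η, hη, ?_⟩
  filter_upwards [hb, h] with L h1 h2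
  exact h2.trans h1

theorem Sm.add {e c ρ : ℝ} (hρ : 0 < ρ) {A B : ℝ → ℝ} (hA : Sm e c ρ A) (hB : Sm e c ρ B) :
    Sm e c ρ fun L => A L + B L := by
  obtain ⟨η₁, h1, ha⟩ := hA
  obtain ⟨η₂, h2, hb⟩ := hB
  obtain ⟨η, hη⟩ : ∃ η : ℝ, η = min η₁ η₂ := ⟨_, rfl⟩
  have hη0 : 0 < η := by rw [hη]; exact lt_min h1 h2
  refine ⟨η / 2, by positivity, ?_⟩
  filter_upwards [ha, hb, absorb hρ (Real.log 2) 0 (show 0 < η / 2 by positivity),
    eventually_gt_atTop (1 : ℝ)] with L g1 g2 g3 g4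
  have hG := Gs_pos (ρ := ρ) g4
  have e1 : Real.exp (e * L + (c - η₁) * Gs ρ L) ≤ Real.exp (e * L + (c - η) * Gs ρ L) := by
    apply Real.exp_le_exp.2
    have : η * Gs ρ L ≤ η₁ * Gs ρ L :=
      mul_le_mul_of_nonneg_right (by rw [hη]; exact min_le_left _ _) hG.le
    nlinarith
  have e2 : Real.exp (e * L + (c - η₂) * Gs ρ L) ≤ Real.exp (e * L + (c - η) * Gs ρ L) := by
    apply Real.exp_le_exp.2
    have : η * Gs ρ L ≤ η₂ * Gs ρ L :=
      mul_le_mul_of_nonneg_right (by rw [hη]; exact min_le_right _ _) hG.le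
    nlinarith
  have e3 : 2 * Real.exp (e * L + (c - η) * Gs ρ L) ≤
      Real.exp (e * L + (c - η / 2) * Gs ρ L) := by
    rw [← Real.exp_log (show (0 : ℝ) < 2 by norm_num), ← Real.exp_add, Real.exp_log (by norm_num)]
    apply Real.exp_le_exp.2
    nlinarith
  linarith

theorem Sm.zero {e c ρ : ℝ} : Sm e c ρ fun _ => 0 :=
  ⟨1, one_pos, Eventually.of_forall fun _ => (Real.exp_pos _).le⟩

theorem Sm.sum {ι : Type} {e c ρ : ℝ} (hρ : 0 < ρ) (s : Finset ι) (A : ι → ℝ → ℝ)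
    (hA : ∀ i ∈ s, Sm e c ρ (A i)) : Sm e c ρ fun L => ∑ i ∈ s, A i L := by
  classical
  induction s using Finset.induction_on with
  | empty => simpa using (Sm.zero (e := e) (c := c) (ρ := ρ))
  | insert a s ha ih =>
    have h1 := (hA a (mem_insert_self a s)).add hρ (ih fun i hi => hA i (mem_insert_of_mem hi))
    refine h1.mono (Eventually.of_forall fun L => ?_)
    rw [Finset.sum_insert ha]

/-- a power saving -/
theorem Sm.power {e c ρ δ C : ℝ} (hρ : 0 < ρ) (hρ1 : ρ < 1) (hδ : 0 < δ) {B : ℝ → ℝ}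
    (hB : ∀ᶠ L : ℝ in atTop, B L ≤ Real.exp ((e - δ) * L + C * Gs ρ L)) : Sm e c ρ B := by
  refine ⟨1, one_pos, ?_⟩
  filter_upwards [hB, Gs_lin hρ hρ1 (C - c + 1) hδ] with L h1 h2
  refine h1.trans (Real.exp_le_exp.2 ?_)
  nlinarith

/-- the proportion -/
theorem Sm.ratio {e c ρ : ℝ} {B N : ℝ → ℝ} (hB : Sm e c ρ B)
    (hN : ∀ ε : ℝ, 0 < ε → ∀ᶠ L : ℝ in atTop, Real.exp (e * L + (c - ε) * Gs ρ L) ≤ N L) :
    ∃ η : ℝ, 0 < η ∧ ∀ᶠ L : ℝ in atTop, B L ≤ Real.exp (-(η * Gs ρ L)) * N L := by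
  obtain ⟨η, hη, hb⟩ := hB
  refine ⟨η / 2, by positivity, ?_⟩
  filter_upwards [hb, hN (η / 2) (by positivity)] with L h1 h2
  refine h1.trans (le_trans (le_of_eq ?_) (mul_le_mul_of_nonneg_left h2 (Real.exp_pos _).le))
  rw [← Real.exp_add]
  congr 1
  ring

/-! ### The exceptions with a small gain at one face -/

/-- the exceptions with a small gain at a maximal face -/
theorem upperQ {n r : ℕ} (hr : 1 ≤ r) (hrn : r + 2 ≤ n) {M κ : ℝ} (hM : 0 < M)
    (hκ : κ = n - 1 / M) (hκ0 : 0 < κ) (hκ1 : κ < 1 / 3) (P : (Fin n → ℤ) → Prop)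
    (hP : ∀ x, P x → ∑ i, x i = 0 ∧ (∀ i, x i ≠ 0) ∧ Tp (Dl n r) (ab x))
    {s₀ : Finset (Fin n)} (hs : s₀.card = r) {ε : ℝ} (hε : 0 < ε) :
    Sm (1 / M - 1) (cst r (n.choose r) * κ ^ ((r : ℝ) / (r + 1))) ((r : ℝ) / (r + 1)) fun L =>
      ({x | x ∈ VV P M (Real.exp L) ∧ gs (ab x) s₀ ≤ (κ / (n.choose r : ℕ) - ε) * L}.ncard : ℝ) := by
  classical
  have hn3 : 3 ≤ n := by omega
  have hn0 : 0 < n := by omega
  have hr0 : (0 : ℝ) < r := by exact_mod_cast hr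
  have hcx := cx_Dl (n := n) hr (by omega : r ≤ n)
  obtain ⟨t, ht⟩ : ∃ t : ℕ, t = n.choose r := ⟨_, rfl⟩
  rw [← ht] at hcx ⊢
  have ht1 : 1 ≤ t := hcx.2.1
  have hcst := cst_pos hr ht1
  obtain ⟨ρ, hρ⟩ : ∃ ρ : ℝ, ρ = (r : ℝ) / (r + 1) := ⟨_, rfl⟩
  have hρ0 : 0 < ρ := by rw [hρ]; positivity
  have hρ1 : ρ ≤ 1 := by
    rw [hρ, div_le_one (by positivity)]
    linarith
  rw [← hρ]
  obtain ⟨c, hc⟩ : ∃ c : ℝ, c = cst r t * κ ^ ρ := ⟨_, rfl⟩
  rw [← hc]
  have hc0 : 0 < c := by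
    rw [hc]; positivity
  obtain ⟨e, he⟩ : ∃ e : ℝ, e = 1 / M - 1 := ⟨_, rfl⟩
  rw [← he]
  have hen : e = (n : ℝ) - 1 - κ := by rw [he, hκ]; ring
  have hn3' : (3 : ℝ) ≤ n := by exact_mod_cast hn3
  have he1 : (n : ℝ) / 2 + 1 / 6 < e := by rw [hen]; linarith
  have he0 : 0 < e := by linarith
  obtain ⟨η, hη, hη1, Z₀, hZ₀, hrank⟩ := rankN hcx (s₀ := s₀) (by
    unfold Dl
    rw [mem_filter]
    exact ⟨mem_univ _, hs.le⟩) hs (ε := ε / κ) (by positivity)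
  obtain ⟨C, X₀, hC, hX₀, hup⟩ := upQ (n := n) (r := r) hr hrn hκ0 hκ1
  refine ⟨η / 4 * c, by positivity, ?_⟩
  filter_upwards [absorb hρ0 (Real.log (3 * C + 1)) (n + 1) (show 0 < η / 4 * c by positivity),
    scale_cmp hκ0 hρ0 hρ1 (show 0 < η / 2 by positivity), eventually_ge_atTop ((n : ℝ) * Real.log 3 * 6),
    eventually_ge_atTop (2 * Real.log X₀), eventually_ge_atTop (Z₀ / κ), eventually_gt_atTop 2]
    with L g1 g2 g3 g4 g5 g6
  have hL1 : 1 < L := by linarith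
  have hG := Gs_pos (ρ := ρ) hL1
  obtain ⟨Z, hZ⟩ : ∃ Z : ℝ, Z = κ * L := ⟨_, rfl⟩
  have hZZ : Z₀ ≤ Z := by
    rw [div_le_iff₀ hκ0] at g5
    rw [hZ]
    linarith
  have hlZ : 0 < Real.log Z := Real.log_pos (by linarith)
  have hZ0 : 0 < Z := by linarith
  obtain ⟨A, hA⟩ : ∃ A : ℝ, A = Real.exp ((1 - η) * (cst r t * (Z / Real.log Z) ^ ρ)) := ⟨_, rfl⟩
  have hA1 : 1 ≤ A := by
    rw [hA]
    apply Real.one_le_exp
    have : 0 ≤ 1 - η := by linarith
    positivity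
  have hA2 : A ≤ Real.exp ((1 - η / 2) * c * Gs ρ L) := by
    rw [hA]
    apply Real.exp_le_exp.2
    rw [← hZ] at g2
    have h1 : (1 - η) * (cst r t * (Z / Real.log Z) ^ ρ) ≤
        (1 - η) * (cst r t * ((1 + η / 2) * (κ ^ ρ * Gs ρ L))) := by
      apply mul_le_mul_of_nonneg_left _ (by linarith)
      exact mul_le_mul_of_nonneg_left g2 hcst.le
    refine h1.trans ?_
    have h2 : (1 - η) * (cst r t * ((1 + η / 2) * (κ ^ ρ * Gs ρ L))) =
        ((1 - η) * (1 + η / 2)) * (c * Gs ρ L) := by rw [hc]; ring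
    rw [h2, mul_assoc (1 - η / 2)]
    apply mul_le_mul_of_nonneg_right _ (by positivity)
    nlinarith
  obtain ⟨X, hX⟩ : ∃ X : ℝ, X = Real.exp L := ⟨_, rfl⟩
  have hX0 : 0 < X := by rw [hX]; exact Real.exp_pos _
  have hlX : Real.log X = L := by rw [hX, Real.log_exp]
  obtain ⟨Y, hY⟩ : ∃ Y : ℝ, Y = Real.exp (L / 2) := ⟨_, rfl⟩
  have hY0 : 0 < Y := by rw [hY]; exact Real.exp_pos _
  have hYX : Y * Y = X := by rw [hY, hX, ← Real.exp_add]; congr 1; ring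
  have hlY : Real.log Y = L / 2 := by rw [hY, Real.log_exp]
  have hY1 : 1 ≤ Y := by rw [hY]; exact Real.one_le_exp (by linarith)
  have hX₀Y : X₀ ≤ Y := by
    rw [hY, ← Real.log_le_iff_le_exp (by linarith)]; linarith
  have hXY : Y ≤ X := by nlinarith
  rw [← hX]
  obtain ⟨B, hB⟩ : ∃ B : Set (Fin n → ℤ),
    B = {x | x ∈ VV P M X ∧ gs (ab x) s₀ ≤ (κ / (t : ℕ) - ε) * L} := ⟨_, rfl⟩
  rw [← hB]
  -- the pieces
  obtain ⟨K, hK⟩ : ∃ K : ℕ, K = ⌈2 * L⌉₊ := ⟨_, rfl⟩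
  obtain ⟨W, hW⟩ : ∃ W : ℕ → Finset (Fin n → ℤ), ∀ k, ∀ x, x ∈ W k ↔
      x ∈ B ∧ (Ht x : ℝ) ≤ X / 2 ^ k ∧ X / 2 ^ k / 2 < Ht x ∧ Y < X / 2 ^ k := by
    have : ∀ k, ∃ W : Finset (Fin n → ℤ), ∀ x, x ∈ W ↔
      x ∈ B ∧ (Ht x : ℝ) ≤ X / 2 ^ k ∧ X / 2 ^ k / 2 < Ht x ∧ Y < X / 2 ^ k := by
      intro k
      have hfin : {x : Fin n → ℤ | x ∈ B ∧ (Ht x : ℝ) ≤ X / 2 ^ k ∧ X / 2 ^ k / 2 < Ht x ∧
          Y < X / 2 ^ k}.Finite :=
        (VV_fin P M X).subset fun x hx => by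
          have := hx.1
          rw [hB] at this
          exact this.1
      exact ⟨hfin.toFinset, fun x => by rw [Set.Finite.mem_toFinset]; rfl⟩
    choose W hW using this
    exact ⟨W, hW⟩
  have hBox := box_card (n := n) Y hY1
  have hsub : B ⊆ {x : Fin n → ℤ | (Ht x : ℝ) ≤ Y} ∪
      (((range K).biUnion W : Finset (Fin n → ℤ)) : Set (Fin n → ℤ)) := by
    intro x hx
    have hx' := hx
    rw [hB] at hx'
    obtain ⟨⟨h1, h2, h3⟩, -⟩ := hx'
    rcases le_or_gt (Ht x : ℝ) Y with h | h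
    · exact Or.inl h
    right
    have hH0 : (0 : ℝ) < Ht x := by linarith
    obtain ⟨k, hk1, hk2⟩ := exists_nat_pow_near (x := X / Ht x) (y := 2)
      (by rw [le_div_iff₀ hH0]; linarith) (by norm_num)
    have hk1' : (Ht x : ℝ) ≤ X / 2 ^ k := by
      rw [le_div_iff₀ (by positivity)]
      rw [le_div_iff₀ hH0] at hk1
      linarith
    have hk2' : X / 2 ^ k / 2 < Ht x := by
      rw [div_div, div_lt_iff₀ (by positivity)]
      rw [div_lt_iff₀ hH0, pow_succ] at hk2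
      linarith
    rw [mem_coe, mem_biUnion]
    refine ⟨k, ?_, (hW k x).2 ⟨hx, hk1', hk2', lt_of_lt_of_le h hk1'⟩⟩
    rw [mem_range, hK]
    apply Nat.lt_ceil.2
    -- `2 ^ k ≤ X / Ht x < Y`
    have h5 : (2 : ℝ) ^ k < Y := by
      refine lt_of_le_of_lt hk1 ?_
      rw [div_lt_iff₀ hH0]
      nlinarith
    have h6 := Real.log_lt_log (by positivity) h5
    rw [Real.log_pow, hlY] at h6
    have h7 : (0.69 : ℝ) < Real.log 2 := by have := Real.log_two_gt_d9; linarith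
    nlinarith [(Nat.cast_nonneg k : (0 : ℝ) ≤ k)]
  have hcount : (B.ncard : ℝ) ≤ (3 * Y) ^ n + ∑ k ∈ range K, ((W k).card : ℝ) := by
    have h1 := Set.ncard_le_ncard hsub (hBox.1.union (Finset.finite_toSet _))
    have h2 := Set.ncard_union_le {x : Fin n → ℤ | (Ht x : ℝ) ≤ Y}
      (((range K).biUnion W : Finset (Fin n → ℤ)) : Set (Fin n → ℤ))
    rw [Set.ncard_coe_finset] at h2
    have h3 : ((range K).biUnion W).card ≤ ∑ k ∈ range K, (W k).card := card_biUnion_le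
    have h4 : (B.ncard : ℝ) ≤ ({x : Fin n → ℤ | (Ht x : ℝ) ≤ Y}.ncard : ℝ) +
        ∑ k ∈ range K, ((W k).card : ℝ) := by
      exact_mod_cast h1.trans (h2.trans (by omega))
    linarith [hBox.2]
  -- each piece
  obtain ⟨g, hg⟩ : ∃ g : ℝ, g = C * L ^ n * (Real.exp (e * L) * A) := ⟨_, rfl⟩
  have hg0 : 0 ≤ g := by rw [hg]; positivity
  have hpiece : ∀ k ∈ range K, ((W k).card : ℝ) ≤ g := by
    intro k _
    rcases (W k).eq_empty_or_nonempty with h0 | ⟨x₀, hx₀⟩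
    · rw [h0, card_empty, Nat.cast_zero]
      exact hg0
    obtain ⟨Xk, hXk⟩ : ∃ Xk : ℝ, Xk = X / 2 ^ k := ⟨_, rfl⟩
    have hYk : Y < Xk := by rw [hXk]; exact ((hW k x₀).1 hx₀).2.2.2
    have hXk0 : 0 < Xk := by linarith
    have hXkX : Xk ≤ X := by
      rw [hXk]; exact div_le_self hX0.le (one_le_pow₀ (by norm_num))
    have hlk : Real.log Xk ≤ L := by rw [← hlX]; exact Real.log_le_log hXk0 hXkX
    have hlk0 : 0 ≤ Real.log Xk := Real.log_nonneg (by linarith)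
    have hb := hup Xk A (fun D => gs D s₀ ≤ (κ / (t : ℕ) - ε) * L) (W k) (by linarith) hA1
      (fun D E hDE hE hQ => (gs_mono hcx hDE hE hs).trans hQ) (by
        intro T hT1 hTX G hG'
        have hlT : Real.log T ≤ Z := by
          have h1 := Real.log_le_log (by linarith) hTX
          rw [Real.log_rpow hXk0] at h1
          rw [hZ]
          exact h1.trans (mul_le_mul_of_nonneg_left hlk hκ0.le)
        have h1 := hrank Z T G hZZ hT1 hlT (by
          intro D hD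
          obtain ⟨i1, i2, i3, i4⟩ := hG' D hD
          refine ⟨i1, i2, i3, i4.trans (le_of_eq ?_)⟩
          rw [hZ]
          field_simp)
        rw [← hρ, ← hA] at h1
        exact h1) ?_
    · refine hb.trans ?_
      rw [hg]
      have h1 : Real.log Xk ^ n ≤ L ^ n := pow_le_pow_left₀ hlk0 hlk n
      have h2 : Xk ^ ((n : ℝ) - 1 - κ) ≤ Real.exp (e * L) := by
        rw [Real.rpow_def_of_pos hXk0, ← hen]
        apply Real.exp_le_exp.2
        rw [mul_comm]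
        exact mul_le_mul_of_nonneg_left hlk he0.le
      have h3 : 0 ≤ A := by linarith
      gcongr
    · intro x hx
      obtain ⟨j1, j2, j3, j4⟩ := (hW k x).1 hx
      rw [hB] at j1
      obtain ⟨⟨j5, j6, j7⟩, j8⟩ := j1
      obtain ⟨i1, i2, i3⟩ := hP x j5
      refine ⟨i1, i2, i3, fun i => ?_, ?_, ?_, j8⟩
      · rw [hXk]; exact (le_Ht x i).trans j2
      · obtain ⟨i, hi⟩ := exists_Ht hn0 x
        exact ⟨i, by rw [hXk, ← hi]; exact j3⟩
      · have hR : (0 : ℝ) < rr (ab x) := by exact_mod_cast rr_pos _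
        have h1 : (rr (ab x) : ℝ) ^ M ≤ Xk := by rw [hXk]; linarith
        have h2 := Real.rpow_le_rpow (by positivity) h1 (by positivity : (0 : ℝ) ≤ 1 / M)
        rw [← Real.rpow_mul hR.le, mul_one_div_cancel hM.ne', Real.rpow_one] at h2
        have h3 : (1 : ℝ) / M = (n : ℝ) - κ := by rw [hκ]; ring
        rwa [h3] at h2
  have hsum : ∑ k ∈ range K, ((W k).card : ℝ) ≤ K * g := by
    have := Finset.sum_le_card_nsmul (range K) _ _ hpiece
    rwa [card_range, nsmul_eq_mul] at this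
  have hKL : (K : ℝ) ≤ 2 * L + 1 := by
    rw [hK]; exact (Nat.ceil_lt_add_one (by linarith)).le
  -- the small heights
  have hsmall : (3 * Y) ^ n ≤ Real.exp (e * L) * A := by
    have h1 : (3 * Y) ^ n = Real.exp (n * Real.log 3 + n * (L / 2)) := by
      rw [mul_pow, hY, Real.exp_add, ← Real.exp_nat_mul, mul_comm (n : ℝ) (Real.log 3),
        ← Real.exp_log (show (0 : ℝ) < 3 by norm_num), ← Real.exp_nat_mul, Real.log_exp]
      congr 2
      ring
    rw [h1]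
    have h2 : Real.exp (e * L) ≤ Real.exp (e * L) * A :=
      le_mul_of_one_le_right (Real.exp_pos _).le hA1
    refine le_trans ?_ h2
    apply Real.exp_le_exp.2
    have h3 : ((n : ℝ) / 2 + 1 / 6) * L ≤ e * L := mul_le_mul_of_nonneg_right he1.le (by linarith)
    have h4 : (n : ℝ) * Real.log 3 ≤ L / 6 := by linarith
    nlinarith
  have hLn : 1 ≤ L ^ (n + 1) := one_le_pow₀ hL1.le
  have hfinal : (B.ncard : ℝ) ≤ (3 * C + 1) * L ^ (n + 1) * (Real.exp (e * L) * A) := by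
    have h0 : 0 ≤ Real.exp (e * L) * A := by positivity
    have h2 : (K : ℝ) * g ≤ 3 * L * g := mul_le_mul_of_nonneg_right (by linarith) hg0
    have h3 : 3 * L * g = 3 * C * L ^ (n + 1) * (Real.exp (e * L) * A) := by
      rw [hg, pow_succ]
      ring
    have h4 : Real.exp (e * L) * A ≤ L ^ (n + 1) * (Real.exp (e * L) * A) :=
      le_mul_of_one_le_left h0 hLn
    calc (B.ncard : ℝ) ≤ (3 * Y) ^ n + K * g := hcount.trans (add_le_add le_rfl hsum)
      _ ≤ L ^ (n + 1) * (Real.exp (e * L) * A) + 3 * C * L ^ (n + 1) * (Real.exp (e * L) * A) := by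
          rw [← h3]
          exact add_le_add (hsmall.trans h4) h2
      _ = _ := by ring
  refine hfinal.trans ?_
  have h1 : (3 * C + 1) * L ^ (n + 1) ≤ Real.exp (η / 4 * c * Gs ρ L) := by
    rw [← Real.exp_log (show 0 < (3 * C + 1) * L ^ (n + 1) by positivity)]
    apply Real.exp_le_exp.2
    rw [Real.log_mul (by positivity) (by positivity), Real.log_pow]
    push_cast
    exact g1
  have h2 : 0 ≤ A := by linarith
  calc (3 * C + 1) * L ^ (n + 1) * (Real.exp (e * L) * A)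
      ≤ Real.exp (η / 4 * c * Gs ρ L) * (Real.exp (e * L) *
        Real.exp ((1 - η / 2) * c * Gs ρ L)) := by gcongr
    _ = _ := by
        rw [← Real.exp_add, ← Real.exp_add]
        congr 1
        ring

end Pool.Agent.U663.CF
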