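import Pool.Agent.U663.CF.Main

/-!
# Common factors (helper663): the typical exceptions to the `n`-term abc inequality
-/

set_option autoImplicit false

namespace Pool.Agent.U663.CF

open Finset Filter Topology Pool.Agent.N906.NT
open Pool.Agent.N755.NT (cx_Dl cst_pos)

/-- a typical exception -/
def Gd {n : ℕ} (κ : ℝ) (r : ℕ) (ε : ℝ) (x : Fin n → ℤ) : Prop :=
  NV x ∧ (∀ i, (1 - ε) * Real.log (Ht x) ≤ Real.log |(x i : ℝ)|) ∧
  |(n * Real.log (Ht x) - Real.log (rr (ab x))) - κ * Real.log (Ht x)| ≤ ε * Real.log (Ht x) ∧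
  (∀ s : Finset (Fin n), s.card = r →
    |gs (ab x) s - κ / (n.choose r : ℕ) * Real.log (Ht x)| ≤ ε * Real.log (Ht x)) ∧
  ∀ s : Finset (Fin n), s.card < r → gs (ab x) s ≤ ε * Real.log (Ht x)

theorem card_faces (n r : ℕ) :
    ((univ : Finset (Finset (Fin n))).filter fun s => s.card = r).card = n.choose r := by
  have h : (univ : Finset (Finset (Fin n))).filter (fun s => s.card = r) =
      Finset.powersetCard r univ := by
    ext s
    rw [mem_filter, mem_powersetCard]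
    exact ⟨fun h => ⟨subset_univ _, h.2⟩, fun h => ⟨mem_univ _, h.2⟩⟩
  rw [h, card_powersetCard, card_univ, Fintype.card_fin]

/-- the elementary part -/
theorem alt {n r t : ℕ} {T : Finset (Finset (Fin n))} (hT : T.card = t) (ht : 1 ≤ t)
    (hTr : ∀ s, s ∈ T ↔ s.card = r) {h R κ ε₁ : ℝ} {a : Fin n → ℝ} {g : Finset (Fin n) → ℝ}
    (hg : ∀ s, 0 ≤ g s) (hsum : ∑ i, a i = ∑ s, g s + R) (ha : ∀ i, a i ≤ h) (hh : 0 ≤ h)
    (hε₁ : 0 < ε₁) (h1 : ∀ s ∈ T, (κ / t - ε₁) * h ≤ g s)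
    (h2 : (n - (κ + ε₁)) * h ≤ R) (h3 : R ≤ (n - κ) * h) :
    (∀ i, (1 - (t + 1) * ε₁) * h ≤ a i) ∧ |(n * h - R) - κ * h| ≤ ε₁ * h ∧
    (∀ s, s.card = r → |g s - κ / t * h| ≤ t * ε₁ * h) ∧
    ∀ s, s.card < r → g s ≤ (t + 1) * ε₁ * h := by
  classical
  have ht0 : (0 : ℝ) < t := by exact_mod_cast ht
  have ht1 : (1 : ℝ) ≤ t := by exact_mod_cast ht
  have hεh : 0 ≤ ε₁ * h := by positivity
  -- the total gain
  have e1 : κ * h - t * (ε₁ * h) ≤ ∑ s ∈ T, g s := by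
    have h4 : ∑ _s ∈ T, (κ / t - ε₁) * h ≤ ∑ s ∈ T, g s := Finset.sum_le_sum h1
    rw [Finset.sum_const, hT, nsmul_eq_mul] at h4
    have h5 : (t : ℝ) * ((κ / t - ε₁) * h) = κ * h - t * (ε₁ * h) := by field_simp
    linarith
  have e2 : ∑ s ∈ T, g s ≤ ∑ s, g s :=
    Finset.sum_le_sum_of_subset_of_nonneg (subset_univ _) fun s _ _ => hg s
  have e3 : ∑ i, (h - a i) = n * h - R - ∑ s, g s := by
    rw [Finset.sum_sub_distrib, Finset.sum_const, card_univ, Fintype.card_fin, nsmul_eq_mul, hsum]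
    ring
  have e4 : ∀ i, h - a i ≤ n * h - R - ∑ s, g s := by
    intro i
    rw [← e3]
    exact Finset.single_le_sum (f := fun i => h - a i) (fun j _ => sub_nonneg.2 (ha j)) (mem_univ i)
  have e5 : 0 ≤ n * h - R - ∑ s, g s := by
    rw [← e3]
    exact Finset.sum_nonneg fun j _ => sub_nonneg.2 (ha j)
  have e6 : n * h - R ≤ κ * h + ε₁ * h := by nlinarith
  refine ⟨fun i => ?_, ?_, fun s hs => ?_, fun s hs => ?_⟩
  · have := e4 i
    nlinarith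
  · rw [abs_le]
    constructor <;> nlinarith
  · have hsT : s ∈ T := (hTr s).2 hs
    have k1 : g s + ∑ s' ∈ T.erase s, g s' = ∑ s' ∈ T, g s' := Finset.add_sum_erase _ _ hsT
    have k2 : (t - 1) * ((κ / t - ε₁) * h) ≤ ∑ s' ∈ T.erase s, g s' := by
      have h4 : ∑ _s' ∈ T.erase s, (κ / t - ε₁) * h ≤ ∑ s' ∈ T.erase s, g s' :=
        Finset.sum_le_sum fun s' hs' => h1 s' (mem_of_mem_erase hs')
      rw [Finset.sum_const, card_erase_of_mem hsT, hT, nsmul_eq_mul, Nat.cast_sub ht,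
        Nat.cast_one] at h4
      exact h4
    have k3 : (t - 1) * ((κ / t - ε₁) * h) = κ * h - κ / t * h - (t - 1) * (ε₁ * h) := by
      field_simp
    have k4 := h1 s hsT
    rw [abs_le]
    constructor
    · nlinarith
    · nlinarith
  · have hsT : s ∉ T := by
      rw [hTr]
      omega
    have k1 : g s + ∑ s' ∈ T, g s' ≤ ∑ s', g s' := by
      rw [← Finset.sum_insert hsT]
      exact Finset.sum_le_sum_of_subset_of_nonneg (subset_univ _) fun s _ _ => hg s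
    nlinarith

theorem Gd_of {n r : ℕ} (hrn : r ≤ n) (hn : 0 < n) {κ ε ε₁ L : ℝ} {x : Fin n → ℤ}
    (hx0 : ∀ i, x i ≠ 0) (hNV : NV x) (hε₁ : 0 < ε₁) (hε : (n.choose r + 2 : ℕ) * ε₁ ≤ ε)
    (hκ : ε₁ ≤ κ / (n.choose r : ℕ)) (hL : Real.log (Ht x) ≤ L)
    (h1 : ∀ s : Finset (Fin n), s.card = r → (κ / (n.choose r : ℕ) - ε₁) * L < gs (ab x) s)
    (h2 : (n - (κ + ε₁)) * Real.log (Ht x) ≤ Real.log (rr (ab x)))
    (h3 : Real.log (rr (ab x)) ≤ (n - κ) * Real.log (Ht x)) : Gd κ r ε x := by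
  have ht1 : 1 ≤ n.choose r := Nat.choose_pos hrn
  have hab0 : ∀ i, ab x i ≠ 0 := fun i => Int.natAbs_ne_zero.2 (hx0 i)
  have hpr : ((pr (ab x) : ℕ) : ℝ) ≠ 0 := by
    exact_mod_cast Finset.prod_ne_zero_iff.2 fun i _ => hab0 i
  have hrr : ((rr (ab x) : ℕ) : ℝ) ≠ 0 := by exact_mod_cast (rr_pos (ab x)).ne'
  have hHt1 : (1 : ℝ) ≤ Ht x := by
    have h4 := le_Ht x ⟨0, hn⟩
    have h5 : (1 : ℝ) ≤ |(x ⟨0, hn⟩ : ℝ)| := by
      have := Int.one_le_abs (hx0 ⟨0, hn⟩)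
      exact_mod_cast this
    linarith
  have hh : 0 ≤ Real.log (Ht x) := Real.log_nonneg hHt1
  have hsum : ∑ i, Real.log |(x i : ℝ)| = ∑ s, gs (ab x) s + Real.log (rr (ab x)) := by
    rw [sum_gs hab0]
    unfold gn
    rw [Real.log_div hpr hrr, sub_add_cancel, Pool.Agent.N130.NT.pr_ab, Real.log_prod]
    intro i _
    have : (x i : ℝ) ≠ 0 := by exact_mod_cast hx0 i
    positivity
  obtain ⟨g1, g2, g3, g4⟩ := alt (n := n) (r := r) (card_faces n r) ht1 (fun s => by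
    rw [mem_filter]
    exact ⟨fun h => h.2, fun h => ⟨mem_univ _, h⟩⟩) (h := Real.log (Ht x)) (κ := κ) (ε₁ := ε₁)
    (fun s => gs_nonneg hab0 s) hsum (fun i => by
      apply Real.log_le_log _ (le_Ht x i)
      have : (x i : ℝ) ≠ 0 := by exact_mod_cast hx0 i
      positivity) hh hε₁ (fun s hs => by
      rw [mem_filter] at hs
      refine le_trans ?_ (h1 s hs.2).le
      exact mul_le_mul_of_nonneg_left hL (by linarith)) h2 h3
  push_cast at hε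
  have ht0 : (0 : ℝ) ≤ (n.choose r : ℕ) := Nat.cast_nonneg _
  have q1 : ((n.choose r : ℕ) + 1 : ℝ) * ε₁ ≤ ε := by nlinarith
  have q2 : ((n.choose r : ℕ) : ℝ) * ε₁ ≤ ε := by nlinarith
  have q3 : ε₁ ≤ ε := by nlinarith
  refine ⟨hNV, fun i => ?_, ?_, fun s hs => ?_, fun s hs => ?_⟩
  · refine le_trans ?_ (g1 i)
    exact mul_le_mul_of_nonneg_right (by linarith) hh
  · exact g2.trans (mul_le_mul_of_nonneg_right q3 hh)
  · exact (g3 s hs).trans (mul_le_mul_of_nonneg_right q2 hh)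
  · exact (g4 s hs).trans (mul_le_mul_of_nonneg_right q1 hh)

/-- the points with a vanishing subsum -/
theorem Sm_NV {n : ℕ} {κ c ρ : ℝ} (hρ : 0 < ρ) (hρ1 : ρ < 1) (hκ : κ < 1) :
    Sm ((n : ℝ) - 1 - κ) c ρ fun L =>
      ({x : Fin n → ℤ | ∑ i, x i = 0 ∧ ¬ NV x ∧ (Ht x : ℝ) ≤ Real.exp L}.ncard : ℝ) := by
  classical
  refine Sm.power (δ := (1 - κ) / 2) (C := 0) hρ hρ1 (by linarith) ?_
  have h0 : (0 : ℝ) < (1 - κ) / 2 := by linarith
  filter_upwards [(tendsto_id.const_mul_atTop h0).eventually_ge_atTop ((n : ℝ) * Real.log 6),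
    eventually_ge_atTop (0 : ℝ)] with L h1 h2
  have hX1 : 1 ≤ Real.exp L := Real.one_le_exp h2
  have hfin : {x : Fin n → ℤ | ∑ i, x i = 0 ∧ ¬ NV x ∧ (Ht x : ℝ) ≤ Real.exp L}.Finite :=
    (box_card (n := n) (Real.exp L) hX1).1.subset fun x hx => hx.2.2
  rw [Set.ncard_eq_toFinset_card _ hfin]
  have h3 := Pool.Agent.N130.NT.card_V n (Real.exp L) hX1 hfin.toFinset (by
    intro x hx
    rw [Set.Finite.mem_toFinset] at hx
    exact ⟨hx.1, fun i => (le_Ht x i).trans hx.2.2, hx.2.1⟩)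
  refine h3.trans ?_
  have h4 : (2 : ℝ) ^ n * (3 ^ n * Real.exp L ^ ((n : ℝ) - 2)) =
      Real.exp (n * Real.log 6 + ((n : ℝ) - 2) * L) := by
    rw [← mul_assoc, ← mul_pow, Real.exp_add, mul_comm (n : ℝ) (Real.log 6), Real.exp_mul,
      Real.exp_log (by norm_num), Real.rpow_natCast, ← Real.exp_mul, mul_comm L]
    norm_num
  rw [h4]
  apply Real.exp_le_exp.2
  simp only [id] at h1
  linarith

/-- **The typical exceptions.** -/
theorem typical {n r : ℕ} (hr : 1 ≤ r) (hrn : r + 2 ≤ n) {κ : ℝ} (hκ0 : 0 < κ) (hκ1 : κ < 1 / 3)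
    (P : (Fin n → ℤ) → Prop)
    (hP1 : ∀ x, P x → ∑ i, x i = 0 ∧ (∀ i, x i ≠ 0) ∧ Tp (Dl n r) (ab x))
    (hP2 : ∀ x, ∑ i, x i = 0 → (∀ i, x i ≠ 0) → NV x → Tp (Dl n r) (ab x) → P x)
    {ε : ℝ} (hε : 0 < ε) :
    ∃ η : ℝ, 0 < η ∧ ∀ᶠ L : ℝ in atTop,
      ({x | x ∈ VV P (1 / ((n : ℝ) - κ)) (Real.exp L) ∧ ¬ Gd κ r ε x}.ncard : ℝ) ≤
        Real.exp (-(η * Gs ((r : ℝ) / (r + 1)) L)) *
          ((VV P (1 / ((n : ℝ) - κ)) (Real.exp L)).ncard : ℝ) := by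
  classical
  have hn0 : 0 < n := by omega
  have hn3 : (3 : ℝ) ≤ n := by exact_mod_cast (by omega : 3 ≤ n)
  have hr0 : (0 : ℝ) < r := by exact_mod_cast hr
  obtain ⟨ρ, hρ⟩ : ∃ ρ : ℝ, ρ = (r : ℝ) / (r + 1) := ⟨_, rfl⟩
  have hρ0 : 0 < ρ := by rw [hρ]; positivity
  have hρ1 : ρ < 1 := by
    rw [hρ, div_lt_one (by positivity)]
    linarith
  obtain ⟨t, ht⟩ : ∃ t : ℕ, t = n.choose r := ⟨_, rfl⟩
  have ht1 : 1 ≤ t := by rw [ht]; exact Nat.choose_pos (by omega)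
  have ht0 : (0 : ℝ) < t := by exact_mod_cast ht1
  obtain ⟨M, hM⟩ : ∃ M : ℝ, M = 1 / ((n : ℝ) - κ) := ⟨_, rfl⟩
  have hnκ : 0 < (n : ℝ) - κ := by linarith
  have hM0 : 0 < M := by rw [hM]; positivity
  have hM1 : 1 / M = (n : ℝ) - κ := by rw [hM, one_div_one_div]
  have hκM : κ = n - 1 / M := by rw [hM1]; ring
  -- the small number
  obtain ⟨ε₁, hε₁⟩ : ∃ ε₁ : ℝ,
    ε₁ = min (min (ε / (t + 2)) (κ / t)) (min (1 / 2) ((1 / 3 - κ) / 2)) := ⟨_, rfl⟩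
  have hε₁0 : 0 < ε₁ := by
    rw [hε₁]
    exact lt_min (lt_min (by positivity) (by positivity)) (lt_min (by norm_num) (by linarith))
  have hε₁1 : ε₁ ≤ ε / (t + 2) := by rw [hε₁]; exact (min_le_left _ _).trans (min_le_left _ _)
  have hε₁2 : ε₁ ≤ κ / t := by rw [hε₁]; exact (min_le_left _ _).trans (min_le_right _ _)
  have hε₁3 : ε₁ ≤ 1 / 2 := by rw [hε₁]; exact (min_le_right _ _).trans (min_le_left _ _)
  have hε₁4 : ε₁ ≤ (1 / 3 - κ) / 2 := by rw [hε₁]; exact (min_le_right _ _).trans (min_le_right _ _)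
  obtain ⟨κ', hκ'⟩ : ∃ κ' : ℝ, κ' = κ + ε₁ := ⟨_, rfl⟩
  have hκ'0 : 0 < κ' := by linarith
  have hκ'1 : κ' < 1 / 3 := by linarith
  obtain ⟨M', hM'⟩ : ∃ M' : ℝ, M' = 1 / ((n : ℝ) - κ') := ⟨_, rfl⟩
  have hnκ' : 0 < (n : ℝ) - κ' := by linarith
  have hM'0 : 0 < M' := by rw [hM']; positivity
  have hM'1 : 1 / M' = (n : ℝ) - κ' := by rw [hM', one_div_one_div]
  have hκM' : κ' = n - 1 / M' := by rw [hM'1]; ring
  obtain ⟨e, he⟩ : ∃ e : ℝ, e = 1 / M - 1 := ⟨_, rfl⟩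
  have hen : e = (n : ℝ) - 1 - κ := by rw [he, hM1]; ring
  have he0 : 0 < e := by rw [hen]; linarith
  obtain ⟨c, hc⟩ : ∃ c : ℝ, c = cst r t * κ ^ ρ := ⟨_, rfl⟩
  have hc0 : 0 < c := by
    rw [hc]
    have := cst_pos hr ht1
    positivity
  rw [← hM, ← hρ]
  -- the lower bound
  have hlow : ∀ ε : ℝ, 0 < ε → ∀ᶠ L : ℝ in atTop,
      Real.exp (e * L + (c - ε) * Gs ρ L) ≤ ((VV P M (Real.exp L)).ncard : ℝ) := by
    intro ε hε
    have h := lower lo_all hr hrn hM0 hκM hκ0 hκ1 P hP2 ε hε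
    rw [← he, ← ht, ← hρ, ← hc] at h
    exact h
  -- small heights
  have A1 : Sm e c ρ fun L => ((VV P M (Real.exp ((1 - ε₁) * L))).ncard : ℝ) := by
    have h := upper up_all hr hrn hM0 hκM hκ0 hκ1 P hP1 1 one_pos
    rw [← he, ← ht, ← hρ, ← hc] at h
    have h1 : Tendsto (fun L : ℝ => (1 - ε₁) * L) atTop atTop :=
      tendsto_id.const_mul_atTop (by linarith)
    refine Sm.power (δ := e * ε₁) (C := c + 1) hρ0 hρ1 (by positivity) ?_
    filter_upwards [h1.eventually h, h1.eventually_ge_atTop (Real.exp 1),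
      eventually_ge_atTop (0 : ℝ)] with L h2 h3 h4
    refine h2.trans (Real.exp_le_exp.2 ?_)
    have h5 : Gs ρ ((1 - ε₁) * L) ≤ Gs ρ L := Gs_mono hρ0.le h3 (by nlinarith)
    have h6 : (c + 1) * Gs ρ ((1 - ε₁) * L) ≤ (c + 1) * Gs ρ L :=
      mul_le_mul_of_nonneg_left h5 (by positivity)
    nlinarith
  -- a small radical
  have A2 : Sm e c ρ fun L => ((VV P M' (Real.exp L)).ncard : ℝ) := by
    have h := upper up_all hr hrn hM'0 hκM' hκ'0 hκ'1 P hP1 1 one_pos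
    rw [← ht, ← hρ] at h
    refine Sm.power (δ := ε₁) (C := cst r t * κ' ^ ρ + 1) hρ0 hρ1 hε₁0 ?_
    filter_upwards [h] with L h2
    refine h2.trans (le_of_eq ?_)
    congr 2
    rw [hM'1, hen, hκ']
    ring
  -- a small gain at one face
  have A3 : ∀ s ∈ (univ : Finset (Finset (Fin n))).filter (fun s => s.card = r), Sm e c ρ fun L =>
      ({x | x ∈ VV P M (Real.exp L) ∧ gs (ab x) s ≤ (κ / (t : ℕ) - ε₁) * L}.ncard : ℝ) := by
    intro s hs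
    rw [mem_filter] at hs
    have h := upperQ hr hrn hM0 hκM hκ0 hκ1 P hP1 (s₀ := s) hs.2 hε₁0
    rw [← he, ← ht, ← hρ, ← hc] at h
    exact h
  have A4 : Sm e c ρ fun L =>
      ({x : Fin n → ℤ | ∑ i, x i = 0 ∧ ¬ NV x ∧ (Ht x : ℝ) ≤ Real.exp L}.ncard : ℝ) := by
    rw [hen]
    exact Sm_NV hρ0 hρ1 (by linarith)
  have hall := ((A1.add hρ0 A2).add hρ0 A4).add hρ0 (Sm.sum hρ0 _ _ A3)
  refine Sm.ratio (hall.mono ?_) hlow
  filter_upwards [eventually_ge_atTop (0 : ℝ)] with L hL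
  have hX1 : 1 ≤ Real.exp L := Real.one_le_exp hL
  obtain ⟨S1, hS1⟩ : ∃ S : Set (Fin n → ℤ), S = VV P M (Real.exp ((1 - ε₁) * L)) := ⟨_, rfl⟩
  obtain ⟨S2, hS2⟩ : ∃ S : Set (Fin n → ℤ), S = VV P M' (Real.exp L) := ⟨_, rfl⟩
  obtain ⟨S4, hS4⟩ : ∃ S : Set (Fin n → ℤ),
    S = {x : Fin n → ℤ | ∑ i, x i = 0 ∧ ¬ NV x ∧ (Ht x : ℝ) ≤ Real.exp L} := ⟨_, rfl⟩
  obtain ⟨S3, hS3⟩ : ∃ S : Finset (Fin n) → Set (Fin n → ℤ),
    S = fun s => {x | x ∈ VV P M (Real.exp L) ∧ gs (ab x) s ≤ (κ / (t : ℕ) - ε₁) * L} := ⟨_, rfl⟩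
  have hf1 : S1.Finite := by rw [hS1]; exact VV_fin _ _ _
  have hf2 : S2.Finite := by rw [hS2]; exact VV_fin _ _ _
  have hf4 : S4.Finite := by
    rw [hS4]
    exact (box_card (n := n) (Real.exp L) hX1).1.subset fun x hx => hx.2.2
  have hf3 : ∀ s, (S3 s).Finite := by
    intro s
    rw [hS3]
    exact (VV_fin P M (Real.exp L)).subset fun x hx => hx.1
  have hf3' : (⋃ s ∈ (univ : Finset (Finset (Fin n))).filter (fun s => s.card = r), S3 s).Finite :=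
    Set.Finite.biUnion (Finset.finite_toSet _) fun s _ => hf3 s
  have hsub : {x | x ∈ VV P M (Real.exp L) ∧ ¬ Gd κ r ε x} ⊆ ((S1 ∪ S2) ∪ S4) ∪
      ⋃ s ∈ (univ : Finset (Finset (Fin n))).filter (fun s => s.card = r), S3 s := by
    intro x hx
    obtain ⟨hxV, hxG⟩ := hx
    obtain ⟨hxP, hxH, hxM⟩ := hxV
    obtain ⟨i1, i2, i3⟩ := hP1 x hxP
    by_contra hcon
    rw [Set.mem_union, Set.mem_union, Set.mem_union, not_or, not_or, not_or] at hcon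
    obtain ⟨⟨⟨n1, n2⟩, n4⟩, n3⟩ := hcon
    apply hxG
    have hHt1 : (1 : ℝ) ≤ Ht x := by
      have h4 := le_Ht x ⟨0, hn0⟩
      have h5 : (1 : ℝ) ≤ |(x ⟨0, hn0⟩ : ℝ)| := by
        have := Int.one_le_abs (i2 ⟨0, hn0⟩)
        exact_mod_cast this
      linarith
    have hHt0 : (0 : ℝ) < Ht x := by linarith
    have hR : (0 : ℝ) < rr (ab x) := by exact_mod_cast rr_pos _
    refine Gd_of (n := n) (r := r) (by omega) hn0 (ε₁ := ε₁) (L := L) i2 ?_ hε₁0 ?_ ?_ ?_ ?_ ?_ ?_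
    · by_contra hNV
      exact n4 (by rw [hS4]; exact ⟨i1, hNV, hxH⟩)
    · rw [← ht]
      push_cast
      rw [le_div_iff₀ (by positivity)] at hε₁1
      linarith
    · rw [← ht]
      exact hε₁2
    · rw [Real.log_le_iff_le_exp hHt0]
      exact hxH
    · intro s hs
      by_contra hlt
      push Not at hlt
      apply n3
      rw [Set.mem_iUnion₂]
      refine ⟨s, mem_filter.2 ⟨mem_univ _, hs⟩, ?_⟩
      rw [hS3, ht]
      exact ⟨⟨hxP, hxH, hxM⟩, hlt⟩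
    · by_contra hlt
      push Not at hlt
      apply n2
      rw [hS2]
      refine ⟨hxP, hxH, ?_⟩
      rw [← hκ'] at hlt
      have h5 : (rr (ab x) : ℝ) < (Ht x : ℝ) ^ (1 / M') := by
        rw [hM'1, ← Real.log_lt_log_iff hR (by positivity), Real.log_rpow hHt0]
        exact hlt
      have h8 := Real.rpow_lt_rpow hR.le h5 hM'0
      rwa [← Real.rpow_mul (Nat.cast_nonneg _), one_div_mul_cancel hM'0.ne', Real.rpow_one] at h8
    · have h5 := Real.log_lt_log (by positivity) hxM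
      rw [Real.log_rpow hR] at h5
      have h6 : Real.log (rr (ab x)) = ((n : ℝ) - κ) * (M * Real.log (rr (ab x))) := by
        rw [hM]
        field_simp
      rw [h6]
      exact mul_le_mul_of_nonneg_left h5.le hnκ.le
  have h1 := Set.ncard_le_ncard hsub (((hf1.union hf2).union hf4).union hf3')
  have h2 := Set.ncard_union_le ((S1 ∪ S2) ∪ S4)
    (⋃ s ∈ (univ : Finset (Finset (Fin n))).filter (fun s => s.card = r), S3 s)
  have h3 := Set.ncard_union_le (S1 ∪ S2) S4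
  have h4 := Set.ncard_union_le S1 S2
  have h5 : (⋃ s ∈ (univ : Finset (Finset (Fin n))).filter (fun s => s.card = r), S3 s).ncard ≤
      ∑ s ∈ (univ : Finset (Finset (Fin n))).filter (fun s => s.card = r), (S3 s).ncard :=
    Finset.set_ncard_biUnion_le _ _
  have h6 : ({x | x ∈ VV P M (Real.exp L) ∧ ¬ Gd κ r ε x}.ncard : ℝ) ≤
      ((S1.ncard + S2.ncard + S4.ncard +
        ∑ s ∈ (univ : Finset (Finset (Fin n))).filter (fun s => s.card = r), (S3 s).ncard : ℕ) : ℝ) := by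
    exact_mod_cast h1.trans (by omega)
  refine h6.trans (le_of_eq ?_)
  push_cast
  rw [hS1, hS2, hS3, hS4]

end Pool.Agent.U663.CF
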