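import Pool.Agent.U663.CF.Bridge
import Pool.Agent.N906.NT.All

/-!
# Common factors (helper663): the upper bound for the tuples with a property inherited by the divisors

`upaQ`, `boxQ`, `upQ` are versions, with a property `Q` of the divisors, of the library theorems
`Pool.Agent.N755.NT.upa`, `Pool.Agent.N130.NT.box_le`, `Pool.Agent.N130.NT.up`.
-/

set_option autoImplicit false

namespace Pool.Agent.U663.CF

open Finset Filter Topology Pool.Agent.N906.NT
open Pool.Agent.N755.NT (cx_Dl pr_pos gn_mul rr_le_gn)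

/-- one box, gains near the threshold -/
theorem upaQ {n r : ℕ} {κ η : ℝ} (hr : 1 ≤ r) (hrn : r + 2 ≤ n) (hκ : 0 < κ) (hη : 0 < η)
    (hκη : κ + η ≤ 1 / 2) : ∃ C : ℝ, 0 < C ∧ ∀ (X T A : ℝ) (B : Fin n → ℝ) (l : Fin n)
      (Q : (Fin n → ℕ) → Prop) (F : Finset (Fin n → ℤ)), 1 ≤ X →
    1 ≤ T → T ≤ X ^ κ → (∀ k, 1 ≤ B k ∧ B k ≤ X) → B l = X →
    ∏ k, B k = 2 ^ n * T * X ^ ((n : ℝ) - κ) →
    (∀ G : Finset (Fin n → ℕ), (∀ D ∈ G, Tp (Dl n r) D ∧ Sq D ∧ T ≤ gn D ∧ Q D) →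
      T * ∑ D ∈ G, 1 / (pr D : ℝ) ≤ A) →
    (∀ x ∈ F, ∑ i, x i = 0 ∧ (∀ k, x k ≠ 0 ∧ |(x k : ℝ)| ≤ B k) ∧
      ∃ D : Fin n → ℕ, (∀ i, (D i : ℤ) ∣ x i) ∧ Tp (Dl n r) D ∧ Sq D ∧ T ≤ gn D ∧
        gn D ≤ T * X ^ η ∧ Q D) →
    (F.card : ℝ) ≤ C * X ^ ((n : ℝ) - 1 - κ) * A := by
  classical
  obtain ⟨C, hC, hseq⟩ := Pool.Agent.N543.NT.seq n (by omega)
  refine ⟨C * (2 * 2 ^ n), by positivity, ?_⟩
  intro X T A B l Q F hX1 hT1 hTX hB hBl hprod hsum hF
  have hX0 : 0 < X := by linarith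
  have hT0 : 0 < T := by linarith
  obtain ⟨β, hβ⟩ : ∃ β : ℝ, β = 2 ^ n * T * X ^ (1 - κ) := ⟨_, rfl⟩
  have hXk : 1 ≤ X ^ (1 - κ) := Real.one_le_rpow hX1 (by linarith)
  have h2n : (1 : ℝ) ≤ 2 ^ n := one_le_pow₀ (by norm_num)
  have hβ1 : 1 ≤ β := by
    rw [hβ]
    nlinarith [mul_le_mul h2n hT1 zero_le_one (by positivity)]
  have hβ0 : 0 < β := by linarith
  have hn1 : 1 ≤ n := by omega
  have hβB : ∀ k, β ≤ B k := by
    intro k
    have e1 : B k * ∏ j ∈ univ.erase k, B j = ∏ j, B j := Finset.mul_prod_erase univ B (mem_univ k)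
    have e2 : ∏ j ∈ univ.erase k, B j ≤ X ^ (n - 1) := by
      calc ∏ j ∈ univ.erase k, B j ≤ ∏ j ∈ univ.erase k, X :=
            Finset.prod_le_prod (fun j _ => by linarith [(hB j).1]) fun j _ => (hB j).2
        _ = X ^ (n - 1) := by
            rw [Finset.prod_const, Finset.card_erase_of_mem (mem_univ k), Finset.card_univ,
              Fintype.card_fin]
    have e3 : X ^ ((n : ℝ) - κ) = X ^ (1 - κ) * X ^ (n - 1) := by
      rw [← Real.rpow_natCast X (n - 1), ← Real.rpow_add hX0]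
      congr 1
      push_cast [Nat.cast_sub hn1]
      ring
    have e4 : β * X ^ (n - 1) ≤ B k * X ^ (n - 1) := by
      calc β * X ^ (n - 1) = ∏ j, B j := by rw [hprod, e3, hβ]; ring
        _ = B k * ∏ j ∈ univ.erase k, B j := e1.symm
        _ ≤ B k * X ^ (n - 1) := mul_le_mul_of_nonneg_left e2 (by linarith [(hB k).1])
    exact le_of_mul_le_mul_right e4 (by positivity)
  obtain ⟨P, hP⟩ : ∃ P : ℝ, P = ∏ k ∈ univ.erase l, B k := ⟨_, rfl⟩
  have hPeq : P = 2 ^ n * T * X ^ ((n : ℝ) - 1 - κ) := by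
    have e1 : B l * ∏ j ∈ univ.erase l, B j = ∏ j, B j := Finset.mul_prod_erase univ B (mem_univ l)
    rw [hBl, ← hP, hprod] at e1
    have e3 : X ^ ((n : ℝ) - κ) = X * X ^ ((n : ℝ) - 1 - κ) := by
      rw [← Real.rpow_one_add' hX0.le]
      · congr 1; ring
      · have : (2 : ℝ) < n := by
          have : 3 ≤ n := by omega
          have : (3 : ℝ) ≤ n := by exact_mod_cast this
          linarith
        linarith
    have e4 : X * P = X * (2 ^ n * T * X ^ ((n : ℝ) - 1 - κ)) := by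
      rw [e1, e3]; ring
    exact mul_left_cancel₀ hX0.ne' e4
  have hP0 : 0 < P := by rw [hPeq]; positivity
  -- the divisors
  have hn' : ∀ x : Fin n → ℤ, ∃ D : Fin n → ℕ, x ∈ F → (∀ i, (D i : ℤ) ∣ x i) ∧ Tp (Dl n r) D ∧
      Sq D ∧ T ≤ gn D ∧ gn D ≤ T * X ^ η ∧ Q D := by
    intro x
    by_cases hx : x ∈ F
    · obtain ⟨D, hD⟩ := (hF x hx).2.2
      exact ⟨D, fun _ => hD⟩
    · exact ⟨fun _ => 0, fun h => absurd h hx⟩
  choose nn hnn using hn'
  have hD : ∀ D ∈ F.image nn, Tp (Dl n r) D ∧ Sq D ∧ T ≤ gn D ∧ gn D ≤ T * X ^ η ∧ Q D := by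
    intro D hD
    obtain ⟨x, hx, rfl⟩ := mem_image.1 hD
    exact (hnn x hx).2
  have hprD : ∀ D ∈ F.image nn, (pr D : ℝ) ≤ β := by
    intro D hDm
    obtain ⟨q1, q2, q3, q4, -⟩ := hD D hDm
    have e1 := rr_le_gn q1.1 q2
    have hg0 : 0 ≤ gn D := by linarith
    have e2 : (pr D : ℝ) ≤ (T * X ^ η) * (T * X ^ η) := by
      rw [← gn_mul D]
      exact mul_le_mul q4 (e1.trans q4) (Nat.cast_nonneg _) (by positivity)
    refine e2.trans ?_
    rw [hβ]
    have e3 : T * (X ^ η * X ^ η) ≤ X ^ (1 - κ) := by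
      calc T * (X ^ η * X ^ η) ≤ X ^ κ * (X ^ η * X ^ η) :=
            mul_le_mul_of_nonneg_right hTX (by positivity)
        _ = X ^ (κ + (η + η)) := by rw [← Real.rpow_add hX0, ← Real.rpow_add hX0]
        _ ≤ X ^ (1 - κ) := Real.rpow_le_rpow_of_exponent_le hX1 (by linarith)
    calc (T * X ^ η) * (T * X ^ η) = T * (T * (X ^ η * X ^ η)) := by ring
      _ ≤ T * X ^ (1 - κ) := mul_le_mul_of_nonneg_left e3 hT0.le
      _ = 1 * (T * X ^ (1 - κ)) := by ring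
      _ ≤ 2 ^ n * (T * X ^ (1 - κ)) := mul_le_mul_of_nonneg_right h2n (by positivity)
      _ = _ := by ring
  have hcard : (F.card : ℝ) ≤ ∑ D ∈ F.image nn, (C * P * (2 / (pr D : ℝ))) := by
    rw [card_eq_sum_card_image nn F]
    push_cast
    refine Finset.sum_le_sum fun D hDm => ?_
    obtain ⟨q1, q2, q3, q4, -⟩ := hD D hDm
    have hpr0 : (0 : ℝ) < pr D := by exact_mod_cast pr_pos q1.1
    have hprβ := hprD D hDm
    have := hseq D l B β q1.1 (fun p hp => by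
      by_contra hcon
      push Not at hcon
      have r1 := q1.2 p hp
      have r2 : (univ.filter fun i => p ∣ D i) = univ := by
        ext i; simp [hcon i]
      rw [r2] at r1
      simp only [Dl, mem_filter, mem_univ, true_and, Finset.card_univ, Fintype.card_fin] at r1
      omega) hβ1 (fun k _ => hβB k) (by nlinarith) {x ∈ F | nn x = D} (by
      intro x hx
      rw [mem_filter] at hx
      obtain ⟨hxF, rfl⟩ := hx
      exact ⟨(hF x hxF).1, (hnn x hxF).1, fun k _ => ((hF x hxF).2.1 k).2⟩)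
    rw [← hP] at this
    refine this.trans ?_
    apply mul_le_mul_of_nonneg_left _ (by positivity)
    have : 1 / β ≤ 1 / (pr D : ℝ) := one_div_le_one_div_of_le hpr0 hprβ
    have e5 : 2 / (pr D : ℝ) = 1 / (pr D : ℝ) + 1 / (pr D : ℝ) := by ring
    rw [e5]
    linarith
  have p1 := hsum (F.image nn) fun D hDm => ⟨(hD D hDm).1, (hD D hDm).2.1, (hD D hDm).2.2.1,
    (hD D hDm).2.2.2.2⟩
  calc (F.card : ℝ) ≤ _ := hcard
    _ = C * (2 * 2 ^ n) * X ^ ((n : ℝ) - 1 - κ) * (T * ∑ D ∈ F.image nn, (1 / (pr D : ℝ))) := by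
        rw [hPeq, Finset.mul_sum, Finset.mul_sum]
        exact Finset.sum_congr rfl fun D _ => by ring
    _ ≤ _ := mul_le_mul_of_nonneg_left p1 (by positivity)

open Pool.Agent.N130.NT (card_V rr_pos pr_ab cnt ext_of_sum prod_g) in
/-- one box -/
theorem boxQ (n r : ℕ) (κ η : ℝ) (hr : 1 ≤ r) (hrn : r + 2 ≤ n) (hκ : 0 < κ)
    (X EA : ℝ) (hX : 1 ≤ X) (hXE : X ^ ((n : ℝ) - 1 - κ) ≤ EA) (Q : (Fin n → ℕ) → Prop)
    (hQ : ∀ D E : Fin n → ℕ, (∀ i, D i ∣ E i) → Tp (Dl n r) E → Q E → Q D)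
    (hA : ∀ (T : ℝ) (B : Fin n → ℝ) (l : Fin n) (F : Finset (Fin n → ℤ)),
      1 ≤ T → T ≤ X ^ κ → (∀ k, 1 ≤ B k ∧ B k ≤ X) → B l = X →
      ∏ k, B k = 2 ^ n * T * X ^ ((n : ℝ) - κ) →
      (∀ x ∈ F, ∑ i, x i = 0 ∧ (∀ k, x k ≠ 0 ∧ |(x k : ℝ)| ≤ B k) ∧
        ∃ D : Fin n → ℕ, (∀ i, (D i : ℤ) ∣ x i) ∧ Tp (Dl n r) D ∧ Sq D ∧ T ≤ gn D ∧
          gn D ≤ T * X ^ η ∧ Q D) → (F.card : ℝ) ≤ EA)
    (hB : ∀ (T : ℝ) (B : Fin n → ℝ) (l : Fin n) (F : Finset (Fin n → ℤ)),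
      1 ≤ T → T ≤ X ^ κ → (∀ k, 1 ≤ B k ∧ B k ≤ X) → B l = X →
      ∏ k, B k = 2 ^ n * T * X ^ ((n : ℝ) - κ) →
      (∀ x ∈ F, ∑ i, x i = 0 ∧ NV x ∧ (∀ k, B k / 2 < |(x k : ℝ)| ∧ |(x k : ℝ)| ≤ B k) ∧
        ∃ D : Fin n → ℕ, (∀ i, (D i : ℤ) ∣ x i) ∧ Tp (Dl n r) D ∧ Sq D ∧ T * X ^ η < gn D ∧
          ∀ p : ℕ, p.Prime → p ∣ pr D → gn D / p < T) → (F.card : ℝ) ≤ X ^ ((n : ℝ) - 1 - κ))
    (B : Fin n → ℝ) (l : Fin n) (hB1 : ∀ k, 1 ≤ B k ∧ B k ≤ X) (hBl : B l = X)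
    (F : Finset (Fin n → ℤ))
    (hF : ∀ x ∈ F, ∑ i, x i = 0 ∧ (∀ i, x i ≠ 0) ∧ Tp (Dl n r) (ab x) ∧ NV x ∧
      (∀ k, B k / 2 < |(x k : ℝ)| ∧ |(x k : ℝ)| ≤ B k) ∧
      (rr (ab x) : ℝ) ≤ X ^ ((n : ℝ) - κ) ∧ Q (ab x)) : (F.card : ℝ) ≤ (6 ^ n + 2) * EA := by
  classical
  have hX0 : 0 < X := by linarith
  have hB0 : ∀ k, 0 < B k := fun k => by linarith [(hB1 k).1]
  have hprod : 0 < ∏ k, B k := Finset.prod_pos fun k _ => hB0 k
  have hE0 : 0 < X ^ ((n : ℝ) - 1 - κ) := by positivity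
  have hXn : 0 < X ^ ((n : ℝ) - κ) := by positivity
  set T : ℝ := (∏ k, B k) / (2 ^ n * X ^ ((n : ℝ) - κ)) with hT
  have hT0 : 0 < T := by positivity
  have hTB : ∏ k, B k = 2 ^ n * T * X ^ ((n : ℝ) - κ) := by
    rw [hT]; field_simp
  have hprodX : ∏ k, B k ≤ X ^ n := by
    calc ∏ k, B k ≤ ∏ _k : Fin n, X := Finset.prod_le_prod (fun k _ => (hB0 k).le)
          (fun k _ => (hB1 k).2)
      _ = X ^ n := by rw [Finset.prod_const, Finset.card_univ, Fintype.card_fin]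
  have hTX : T ≤ X ^ κ := by
    rw [hT, div_le_iff₀ (by positivity)]
    have e1 : X ^ κ * (2 ^ n * X ^ ((n : ℝ) - κ)) = 2 ^ n * X ^ n := by
      rw [Real.rpow_sub hX0, Real.rpow_natCast]
      field_simp
    rw [e1]
    have h2n : (1 : ℝ) ≤ 2 ^ n := one_le_pow₀ (by norm_num)
    have hXn' : 0 < X ^ n := by positivity
    nlinarith
  rcases lt_or_ge T 1 with hT1 | hT1
  · -- few tuples in the box
    have hc := cnt F (fun x k => if k = l then 0 else x k)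
      (by
        intro x hx y hy h
        apply ext_of_sum (hF x hx).1 (hF y hy).1 l
        intro k hk
        have h2 := congrFun h k
        simpa only [if_neg hk] using h2)
      (fun k => if k = l then 0 else B k) (by
        intro k
        split_ifs
        · exact le_rfl
        · exact (hB0 k).le) (by
        intro x hx k
        by_cases hk : k = l
        · rw [if_pos hk, if_pos hk]; simp
        · rw [if_neg hk, if_neg hk]
          exact ((hF x hx).2.2.2.2.1 k).2)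
    have hc2 := prod_g B (fun k => if k = l then 0 else B k) l l l (1 / X) 1 1 (by
        intro k
        split_ifs
        · exact le_rfl
        · exact (hB0 k).le) (by
      intro k
      by_cases hk : k = l
      · rw [if_pos hk, if_pos hk, if_pos hk, hk, hBl]
        have : 3 * (1 / X * (1 * 1)) * X = 3 := by field_simp
        rw [this]
        norm_num
      · rw [if_neg hk, if_neg hk, if_neg hk]
        linarith [(hB1 k).1])
    have h3 : (F.card : ℝ) ≤ 6 ^ n * X ^ ((n : ℝ) - 1 - κ) := by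
      refine (hc.trans hc2).trans ?_
      rw [hTB]
      have e1 : X ^ ((n : ℝ) - κ) = X ^ ((n : ℝ) - 1 - κ) * X := by
        have : (n : ℝ) - κ = ((n : ℝ) - 1 - κ) + 1 := by ring
        rw [this, Real.rpow_add hX0, Real.rpow_one]
      rw [e1]
      have e2 : 3 ^ n * (1 / X * (1 * 1)) * (2 ^ n * T * (X ^ ((n : ℝ) - 1 - κ) * X)) =
          6 ^ n * X ^ ((n : ℝ) - 1 - κ) * T := by
        have : (6 : ℝ) ^ n = 3 ^ n * 2 ^ n := by rw [← mul_pow]; norm_num
        rw [this]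
        field_simp
      rw [e2]
      calc 6 ^ n * X ^ ((n : ℝ) - 1 - κ) * T ≤ 6 ^ n * X ^ ((n : ℝ) - 1 - κ) * 1 :=
            mul_le_mul_of_nonneg_left hT1.le (by positivity)
        _ = _ := mul_one _
    have h4 : (6 : ℝ) ^ n * X ^ ((n : ℝ) - 1 - κ) ≤ 6 ^ n * EA :=
      mul_le_mul_of_nonneg_left hXE (by positivity)
    have h5 : 0 ≤ EA := hE0.le.trans hXE
    linarith
  · -- the gain
    have hcx := cx_Dl (n := n) (r := r) hr (by omega)
    have hred : ∀ x ∈ F, ∃ D : Fin n → ℕ, (∀ i, (D i : ℤ) ∣ x i) ∧ Tp (Dl n r) D ∧ Sq D ∧ T ≤ gn D ∧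
        Q D ∧ ∀ p : ℕ, p.Prime → p ∣ pr D → gn D / p < T := by
      intro x hx
      obtain ⟨-, hx0, hTp, -, hxB, hrr, hQx⟩ := hF x hx
      have hgn : T ≤ gn (ab x) := by
        unfold gn
        rw [pr_ab, le_div_iff₀ (rr_pos _)]
        have e1 : T * rr (ab x) ≤ T * X ^ ((n : ℝ) - κ) :=
          mul_le_mul_of_nonneg_left hrr hT0.le
        have e2 : T * X ^ ((n : ℝ) - κ) = ∏ k, (B k / 2) := by
          rw [Finset.prod_div_distrib, Finset.prod_const, Finset.card_univ, Fintype.card_fin, hTB]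
          field_simp
        rw [e2] at e1
        refine e1.trans ?_
        apply Finset.prod_le_prod (fun k _ => by have := hB0 k; positivity)
        intro k _
        exact (hxB k).1.le
      obtain ⟨D, g1, g2, g3, g4, g5⟩ :=
        Pool.Agent.N475.NT.red n (Dl n r) r (n.choose r) hcx (ab x) T hTp hT1 hgn
      exact ⟨D, fun i => Int.natCast_dvd.2 (g1 i), g2, g3, g4, hQ D (ab x) g1 hTp hQx, g5⟩
    set FA := F.filter (fun x => ∃ D : Fin n → ℕ, (∀ i, (D i : ℤ) ∣ x i) ∧ Tp (Dl n r) D ∧ Sq D ∧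
      T ≤ gn D ∧ gn D ≤ T * X ^ η ∧ Q D) with hFA
    set FB := F.filter (fun x => ∃ D : Fin n → ℕ, (∀ i, (D i : ℤ) ∣ x i) ∧ Tp (Dl n r) D ∧ Sq D ∧
      T * X ^ η < gn D ∧ ∀ p : ℕ, p.Prime → p ∣ pr D → gn D / p < T) with hFB
    have hcov : F ⊆ FA ∪ FB := by
      intro x hx
      obtain ⟨D, g1, g2, g3, g4, g6, g5⟩ := hred x hx
      rw [Finset.mem_union]
      rcases le_or_gt (gn D) (T * X ^ η) with h | h
      · left
        exact Finset.mem_filter.2 ⟨hx, D, g1, g2, g3, g4, h, g6⟩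
      · right
        exact Finset.mem_filter.2 ⟨hx, D, g1, g2, g3, h, g5⟩
    have hcA : (FA.card : ℝ) ≤ EA := by
      apply hA T B l FA hT1 hTX hB1 hBl hTB
      intro x hx
      obtain ⟨hxF, hD⟩ := Finset.mem_filter.1 hx
      obtain ⟨g1, g2, -, -, g3, -, -⟩ := hF x hxF
      exact ⟨g1, fun k => ⟨g2 k, (g3 k).2⟩, hD⟩
    have hcB : (FB.card : ℝ) ≤ X ^ ((n : ℝ) - 1 - κ) := by
      apply hB T B l FB hT1 hTX hB1 hBl hTB
      intro x hx
      obtain ⟨hxF, hD⟩ := Finset.mem_filter.1 hx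
      obtain ⟨g1, -, -, g2, g3, -, -⟩ := hF x hxF
      exact ⟨g1, g2, g3, hD⟩
    have h6 : (F.card : ℝ) ≤ FA.card + FB.card := by
      exact_mod_cast (Finset.card_le_card hcov).trans (Finset.card_union_le _ _)
    have h7 : 0 ≤ 6 ^ n * EA := by
      have := hE0.le.trans hXE
      positivity
    linarith


open Pool.Agent.N130.NT (card_V rr_pos pr_ab cnt ext_of_sum prod_g) in
/-- the upper bound -/
theorem upQ {n r : ℕ} {κ : ℝ} (hr : 1 ≤ r) (hrn : r + 2 ≤ n) (hκ : 0 < κ) (hκ3 : κ < 1 / 3) :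
    ∃ C X₀ : ℝ, 0 < C ∧ 3 < X₀ ∧ ∀ (X A : ℝ) (Q : (Fin n → ℕ) → Prop) (F : Finset (Fin n → ℤ)),
      X₀ ≤ X → 1 ≤ A →
      (∀ D E : Fin n → ℕ, (∀ i, D i ∣ E i) → Tp (Dl n r) E → Q E → Q D) →
      (∀ T : ℝ, 1 ≤ T → T ≤ X ^ κ →
        ∀ G : Finset (Fin n → ℕ), (∀ D ∈ G, Tp (Dl n r) D ∧ Sq D ∧ T ≤ gn D ∧ Q D) →
          T * ∑ D ∈ G, 1 / (pr D : ℝ) ≤ A) →
      (∀ x ∈ F, ∑ i, x i = 0 ∧ (∀ i, x i ≠ 0) ∧ Tp (Dl n r) (ab x) ∧ (∀ i, |(x i : ℝ)| ≤ X) ∧
        (∃ i, X / 2 < |(x i : ℝ)|) ∧ (rr (ab x) : ℝ) ≤ X ^ ((n : ℝ) - κ) ∧ Q (ab x)) →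
      (F.card : ℝ) ≤ C * (Real.log X) ^ n * (X ^ ((n : ℝ) - 1 - κ) * A) := by
  classical
  obtain ⟨Ca, hCa0, ha⟩ := upaQ (n := n) (r := r) (κ := κ) (η := 1 / 6) hr hrn hκ (by norm_num)
    (by linarith)
  obtain ⟨Xb, hXb3, hb⟩ := Pool.Agent.N434.NT.upb Pool.Agent.N543.NT.seq Pool.Agent.N130.NT.prm
    gupn_all n r κ (1 / 6) hr hrn hκ hκ3 (by norm_num)
  set CN : ℝ := 6 ^ n + 3 ^ n * (6 ^ n + 2) with hCN
  have hCN0 : 0 < CN := by positivity
  refine ⟨CN * max 1 Ca, max Xb 31, by positivity, by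
    have := le_max_left Xb 31
    linarith, ?_⟩
  intro X A Q F hX hA1 hQ hsum hF
  have hXb : Xb ≤ X := (le_max_left _ _).trans hX
  have hX31 : (31 : ℝ) ≤ X := (le_max_right _ _).trans hX
  have hX0 : 0 < X := by linarith
  have hX1 : 1 ≤ X := by linarith
  have hlogX : 1 ≤ Real.log X := by
    rw [Real.le_log_iff_exp_le hX0]
    have := Real.exp_one_lt_d9
    linarith
  set EA : ℝ := max 1 Ca * (X ^ ((n : ℝ) - 1 - κ) * A) with hEA
  have hY0 : 0 < X ^ ((n : ℝ) - 1 - κ) := by positivity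
  have hEA0 : 0 < EA := by
    have : 0 < A := by linarith
    have : (0 : ℝ) < max 1 Ca := lt_max_of_lt_left one_pos
    positivity
  have hXE : X ^ ((n : ℝ) - 1 - κ) ≤ EA := by
    rw [hEA]
    have h1 : X ^ ((n : ℝ) - 1 - κ) ≤ X ^ ((n : ℝ) - 1 - κ) * A := le_mul_of_one_le_right hY0.le hA1
    refine h1.trans (le_mul_of_one_le_left ?_ (le_max_left _ _))
    exact hY0.le.trans h1
  have hEAa : Ca * X ^ ((n : ℝ) - 1 - κ) * A ≤ EA := by
    rw [hEA, mul_assoc]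
    apply mul_le_mul_of_nonneg_right (le_max_right _ _)
    have : 0 < A := by linarith
    positivity
  -- the tuples with a vanishing subsum
  set FV := F.filter (fun x => ¬ NV x) with hFV
  have hcV : (FV.card : ℝ) ≤ 6 ^ n * EA := by
    have h := card_V n X hX1 FV (by
      intro x hx
      obtain ⟨hxF, hN⟩ := Finset.mem_filter.1 hx
      exact ⟨(hF x hxF).1, (hF x hxF).2.2.2.1, hN⟩)
    have e1 : X ^ ((n : ℝ) - 2) ≤ X ^ ((n : ℝ) - 1 - κ) :=
      Real.rpow_le_rpow_of_exponent_le hX1 (by linarith)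
    calc (FV.card : ℝ) ≤ 2 ^ n * (3 ^ n * X ^ ((n : ℝ) - 2)) := h
      _ = 6 ^ n * X ^ ((n : ℝ) - 2) := by
          have : (6 : ℝ) ^ n = 2 ^ n * 3 ^ n := by rw [← mul_pow]; norm_num
          rw [this, mul_assoc]
      _ ≤ 6 ^ n * EA := mul_le_mul_of_nonneg_left (e1.trans hXE) (by positivity)
  -- the boxes
  set G : (Fin n → ℕ) → Finset (Fin n → ℤ) := fun e => F.filter (fun x => NV x ∧
    ∀ k, X / 2 ^ (e k) / 2 < |(x k : ℝ)| ∧ |(x k : ℝ)| ≤ X / 2 ^ (e k)) with hG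
  have hGc : ∀ e, ((G e).card : ℝ) ≤ (6 ^ n + 2) * EA := by
    intro e
    rcases (G e).eq_empty_or_nonempty with h0 | ⟨x0, hx0⟩
    · rw [h0, Finset.card_empty, Nat.cast_zero]
      positivity
    obtain ⟨hx0F, hN0, hx0B⟩ := Finset.mem_filter.1 hx0
    obtain ⟨-, hne, -, -, ⟨l, hl⟩, -, -⟩ := hF x0 hx0F
    have hel : e l = 0 := by
      by_contra hcon
      have h5 : X / 2 ^ (e l) ≤ X / 2 := by
        apply div_le_div_of_nonneg_left hX0.le (by norm_num)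
        calc (2 : ℝ) = 2 ^ 1 := (pow_one _).symm
          _ ≤ 2 ^ (e l) := pow_le_pow_right₀ (by norm_num) (by omega)
      linarith [(hx0B l).2]
    apply boxQ n r κ (1 / 6) hr hrn hκ X EA hX1 hXE Q hQ
      (fun T B l F g1 g2 g3 g4 g5 g6 => (ha X T A B l Q F hX1 g1 g2 g3 g4 g5
        (hsum T g1 g2) g6).trans (le_of_eq_of_le rfl hEAa))
      (fun T B l F g1 g2 g3 g4 g5 g6 => hb X T B l F hXb g1 g2 g3 g4 g5 g6)
      (fun k => X / 2 ^ (e k)) l
    · intro k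
      constructor
      · refine le_trans ?_ (hx0B k).2
        have := Int.one_le_abs (hne k)
        exact_mod_cast this
      · exact div_le_self hX0.le (one_le_pow₀ (by norm_num))
    · rw [hel]
      simp
    · intro x hx
      obtain ⟨hxF, hN, hxB⟩ := Finset.mem_filter.1 hx
      obtain ⟨g1, g2, g3, g4, g5, g6, g7⟩ := hF x hxF
      exact ⟨g1, g2, g3, hN, hxB, g6, g7⟩
  set K : ℕ := ⌊2 * Real.log X⌋₊ with hK
  have hKle : (K : ℝ) ≤ 2 * Real.log X := Nat.floor_le (by positivity)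
  have hcov : F ⊆ FV ∪ (Fintype.piFinset (fun _ : Fin n => range (K + 1))).biUnion G := by
    intro x hx
    rw [Finset.mem_union]
    by_cases hN : NV x
    · right
      obtain ⟨g1, g2, g3, g4, g5, g6, g7⟩ := hF x hx
      have hex : ∀ k, ∃ m : ℕ, (2 : ℝ) ^ m ≤ X / |(x k : ℝ)| ∧ X / |(x k : ℝ)| < 2 ^ (m + 1) := by
        intro k
        have hk1 : (1 : ℝ) ≤ |(x k : ℝ)| := by
          have := Int.one_le_abs (g2 k)
          exact_mod_cast this
        exact exists_nat_pow_near (by rw [le_div_iff₀ (by linarith)]; linarith [g4 k]) (by norm_num)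
      choose e he using hex
      rw [Finset.mem_biUnion]
      refine ⟨e, ?_, ?_⟩
      · rw [Fintype.mem_piFinset]
        intro k
        have hk1 : (1 : ℝ) ≤ |(x k : ℝ)| := by
          have := Int.one_le_abs (g2 k)
          exact_mod_cast this
        rw [Finset.mem_range, Nat.lt_succ_iff, hK]
        apply Nat.le_floor
        have h5 : (2 : ℝ) ^ (e k) ≤ X := (he k).1.trans (div_le_self hX0.le hk1)
        have h6 : Real.log ((2 : ℝ) ^ (e k)) ≤ Real.log X := Real.log_le_log (by positivity) h5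
        rw [Real.log_pow] at h6
        have h8 := Real.log_two_gt_d9
        have h9 : (0 : ℝ) ≤ e k := Nat.cast_nonneg _
        nlinarith
      · refine Finset.mem_filter.2 ⟨hx, hN, fun k => ?_⟩
        have hk1 : (1 : ℝ) ≤ |(x k : ℝ)| := by
          have := Int.one_le_abs (g2 k)
          exact_mod_cast this
        have hk0 : (0 : ℝ) < |(x k : ℝ)| := by linarith
        have h2k : (0 : ℝ) < 2 ^ (e k) := by positivity
        obtain ⟨he1, he2⟩ := he k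
        rw [le_div_iff₀ hk0] at he1
        rw [div_lt_iff₀ hk0] at he2
        constructor
        · rw [div_div, div_lt_iff₀ (by positivity)]
          calc X < 2 ^ (e k + 1) * |(x k : ℝ)| := he2
            _ = |(x k : ℝ)| * (2 ^ (e k) * 2) := by ring
        · rw [le_div_iff₀ h2k]
          linarith
    · left
      exact Finset.mem_filter.2 ⟨hx, hN⟩
  have hc2 : (((Fintype.piFinset (fun _ : Fin n => range (K + 1))).biUnion G).card : ℝ) ≤
      (3 * Real.log X) ^ n * ((6 ^ n + 2) * EA) := by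
    calc (((Fintype.piFinset (fun _ : Fin n => range (K + 1))).biUnion G).card : ℝ)
        ≤ ((∑ e ∈ Fintype.piFinset (fun _ : Fin n => range (K + 1)), (G e).card : ℕ) : ℝ) := by
          exact_mod_cast Finset.card_biUnion_le
      _ = ∑ e ∈ Fintype.piFinset (fun _ : Fin n => range (K + 1)), ((G e).card : ℝ) := by
          push_cast; rfl
      _ ≤ ∑ e ∈ Fintype.piFinset (fun _ : Fin n => range (K + 1)), (6 ^ n + 2) * EA :=
          Finset.sum_le_sum (fun e _ => hGc e)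
      _ = ((K : ℝ) + 1) ^ n * ((6 ^ n + 2) * EA) := by
          rw [Finset.sum_const, Fintype.card_piFinset, Finset.prod_const, Finset.card_range,
            Finset.card_univ, Fintype.card_fin, nsmul_eq_mul]
          push_cast
          ring
      _ ≤ _ := by
          apply mul_le_mul_of_nonneg_right _ (by positivity)
          apply pow_le_pow_left₀ (by positivity)
          linarith
  have hcard : (F.card : ℝ) ≤ FV.card +
      ((Fintype.piFinset (fun _ : Fin n => range (K + 1))).biUnion G).card := by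
    exact_mod_cast (Finset.card_le_card hcov).trans (Finset.card_union_le _ _)
  have hln : 1 ≤ (Real.log X) ^ n := one_le_pow₀ hlogX
  have hfin : (F.card : ℝ) ≤ CN * (Real.log X) ^ n * EA := by
    have e1 : (6 : ℝ) ^ n * EA ≤ 6 ^ n * EA * (Real.log X) ^ n := by
      have : 0 ≤ (6 : ℝ) ^ n * EA := by positivity
      nlinarith
    calc (F.card : ℝ) ≤ 6 ^ n * EA + (3 * Real.log X) ^ n * ((6 ^ n + 2) * EA) := by linarith
      _ ≤ 6 ^ n * EA * (Real.log X) ^ n + (3 * Real.log X) ^ n * ((6 ^ n + 2) * EA) := by linarith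
      _ = CN * (Real.log X) ^ n * EA := by
          rw [hCN, mul_pow]
          ring
  refine hfin.trans (le_of_eq ?_)
  rw [hEA]
  ring

end Pool.Agent.U663.CF
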